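import Mathlib

set_option autoImplicit false

open Finset Polynomial

namespace Pool.Agent.Y764.W

/-- a polynomial with as many distinct roots as its degree -/
theorem eval_of_roots {ι : Type*} (p : ℝ[X]) (S : Finset ι) (r : ι → ℝ)
    (hinj : ∀ i ∈ S, ∀ j ∈ S, r i = r j → i = j) (hdeg : p.natDegree = S.card) (h0 : p ≠ 0)
    (hr : ∀ i ∈ S, p.eval (r i) = 0) (y : ℝ) :
    p.eval y = p.leadingCoeff * ∏ i ∈ S, (y - r i) := by
  classical
  have hc : (S.image r).card = S.card := Finset.card_image_of_injOn (fun i hi j hj h => hinj i hi j hj h)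
  have hsub : (S.image r).val ≤ p.roots := by
    rw [Multiset.le_iff_subset (S.image r).nodup]
    intro x hx
    rw [Finset.mem_val, Finset.mem_image] at hx
    obtain ⟨i, hi, rfl⟩ := hx
    exact (mem_roots h0).2 (hr i hi)
  have heq : (S.image r).val = p.roots := by
    apply Multiset.eq_of_le_of_card_le hsub
    rw [Finset.card_val, hc, ← hdeg]
    exact p.card_roots'
  have hcard : p.roots.card = p.natDegree := by
    rw [← heq, Finset.card_val, hc, hdeg]
  have h := C_leadingCoeff_mul_prod_multiset_X_sub_C hcard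
  have h2 := congrArg (Polynomial.eval y) h
  rw [← h2, ← heq]
  rw [eval_mul, eval_C, eval_multiset_prod, Multiset.map_map]
  congr 1
  have : ∏ i ∈ S, (y - r i) = ∏ x ∈ S.image r, (y - x) := by
    rw [Finset.prod_image]
    exact fun i hi j hj h => hinj i hi j hj h
  rw [this, Finset.prod]
  congr 1
  apply Multiset.map_congr rfl
  intro x _
  simp

theorem cos_inj_aux {D k k' : ℕ} {φ φ' : ℝ} (hD : 0 < D) (hk : k < D) (hk' : k' < D) (h0 : 0 < φ) (h1 : φ < Real.pi)
    (h0' : 0 < φ') (h1' : φ' < Real.pi)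
    (h : Real.cos ((φ + 2 * Real.pi * k) / D) = Real.cos ((φ' + 2 * Real.pi * k') / D)) : k = k' := by
  have hp := Real.pi_pos
  have hDr : (0:ℝ) < D := by exact_mod_cast hD
  rw [Real.cos_eq_cos_iff] at h
  obtain ⟨m, hm⟩ := h
  have hkr : (k:ℝ) + 1 ≤ D := by exact_mod_cast hk
  have hkr' : (k':ℝ) + 1 ≤ D := by exact_mod_cast hk'
  have hk0 : (0:ℝ) ≤ k := Nat.cast_nonneg k
  have hk0' : (0:ℝ) ≤ k' := Nat.cast_nonneg k'
  rcases hm with hm | hm
  · have e : φ' + 2 * Real.pi * k' = 2 * m * Real.pi * D + (φ + 2 * Real.pi * k) := by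
      have := congrArg (fun t => t * (D:ℝ)) hm
      simp only [add_mul, div_mul_cancel₀ _ hDr.ne'] at this
      linarith
    have e2 : φ' - φ = 2 * Real.pi * ((m * D + k - k' : ℤ) : ℝ) := by
      push_cast
      linarith
    have b1 : ((m * D + k - k' : ℤ) : ℝ) < 1 := by
      by_contra hc
      push Not at hc
      nlinarith
    have b2 : (-1:ℝ) < ((m * D + k - k' : ℤ) : ℝ) := by
      by_contra hc
      push Not at hc
      nlinarith
    have b3 : (m * D + k - k' : ℤ) = 0 := by
      have c1 : (m * D + k - k' : ℤ) < 1 := by exact_mod_cast b1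
      have c2 : (-1:ℤ) < (m * D + k - k' : ℤ) := by exact_mod_cast b2
      omega
    have hm0 : m = 0 := by
      by_contra hne
      rcases lt_or_gt_of_ne hne with hlt | hgt
      · have : m * (D:ℤ) ≤ -D := by nlinarith
        omega
      · have : (D:ℤ) ≤ m * D := by nlinarith
        omega
    rw [hm0] at b3
    omega
  · exfalso
    have e : φ' + 2 * Real.pi * k' = 2 * m * Real.pi * D - (φ + 2 * Real.pi * k) := by
      have := congrArg (fun t => t * (D:ℝ)) hm
      simp only [sub_mul, div_mul_cancel₀ _ hDr.ne'] at this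
      linarith
    have e2 : φ' + φ = 2 * Real.pi * ((m * D - k - k' : ℤ) : ℝ) := by
      push_cast
      linarith
    have b1 : ((m * D - k - k' : ℤ) : ℝ) < 1 := by
      by_contra hc
      push Not at hc
      nlinarith
    have b2 : (0:ℝ) < ((m * D - k - k' : ℤ) : ℝ) := by
      by_contra hc
      push Not at hc
      nlinarith
    have c1 : (m * D - k - k' : ℤ) < 1 := by exact_mod_cast b1
    have c2 : (0:ℤ) < (m * D - k - k' : ℤ) := by exact_mod_cast b2
    omega

theorem cos_fiber {D : ℕ} (hD : 0 < D) (k : ℕ) (φ : ℝ) :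
    (Chebyshev.T ℝ D).eval (Real.cos ((φ + 2 * Real.pi * k) / D)) = Real.cos φ := by
  have hDr : (D:ℝ) ≠ 0 := by exact_mod_cast hD.ne'
  rw [Chebyshev.T_real_cos]
  have : ((D:ℤ):ℝ) * ((φ + 2 * Real.pi * k) / D) = φ + k * (2 * Real.pi) := by
    push_cast
    field_simp
  rw [this, Real.cos_add_nat_mul_two_pi]

/-- product formula for the fibre -/
theorem prodform {D : ℕ} (hD : 0 < D) {φ : ℝ} (h0 : 0 < φ) (h1 : φ < Real.pi) (y : ℝ) :
    (Chebyshev.T ℝ D).eval y - Real.cos φ =
      2 ^ (D - 1) * ∏ k ∈ range D, (y - Real.cos ((φ + 2 * Real.pi * k) / D)) := by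
  set p : ℝ[X] := Chebyshev.T ℝ D - C (Real.cos φ) with hp
  have hn : (Chebyshev.T ℝ (D:ℤ)).natDegree = D := by rw [Chebyshev.natDegree_T]; simp
  have hl : (Chebyshev.T ℝ (D:ℤ)).leadingCoeff = 2 ^ (D - 1) := by
    rw [Chebyshev.leadingCoeff_T]; simp
  have hd : (C (Real.cos φ)).degree < (Chebyshev.T ℝ (D:ℤ)).degree := by
    refine lt_of_le_of_lt degree_C_le ?_
    rw [Chebyshev.degree_T]
    simp only [Int.natAbs_natCast]
    exact_mod_cast hD
  have hpn : p.natDegree = D := by
    rw [hp, natDegree_sub_C, hn]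
  have hpl : p.leadingCoeff = 2 ^ (D - 1) := by
    rw [hp, leadingCoeff_sub_of_degree_lt hd, hl]
  have hp0 : p ≠ 0 := by
    intro h
    rw [h, leadingCoeff_zero] at hpl
    exact (pow_ne_zero _ two_ne_zero) hpl.symm
  have := eval_of_roots p (range D) (fun k => Real.cos ((φ + 2 * Real.pi * k) / D))
    (fun i hi j hj h => cos_inj_aux hD (mem_range.1 hi) (mem_range.1 hj) h0 h1 h0 h1 h)
    (by rw [hpn, card_range]) hp0
    (fun i _ => by rw [hp, eval_sub, eval_C, cos_fiber hD, sub_self]) y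
  rw [hpl] at this
  rw [← this, hp, eval_sub, eval_C]

/-- sums over the fibre -/
theorem sum_exp {D j : ℕ} (h0 : 0 < j) (h1 : j < D) (φ : ℝ) :
    ∑ k ∈ range D, Complex.exp ((((j:ℝ) * ((φ + 2 * Real.pi * k) / D) : ℝ) : ℂ) * Complex.I) = 0 := by
  have hD : (D:ℂ) ≠ 0 := by exact_mod_cast (h0.trans h1).ne'
  set ζ : ℂ := Complex.exp (2 * Real.pi * Complex.I * (j / D)) with hζ
  have hne : ζ ≠ 1 := by
    intro h
    rw [hζ, Complex.exp_eq_one_iff] at h
    obtain ⟨n, hn⟩ := h
    have hpi : (2 * Real.pi * Complex.I : ℂ) ≠ 0 := Complex.two_pi_I_ne_zero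
    have : ((j:ℂ) / D) = n := by
      apply mul_left_cancel₀ hpi
      rw [hn]; ring
    rw [div_eq_iff hD] at this
    have h3 : (j:ℤ) = n * D := by exact_mod_cast this
    have hn1 : 0 < n := by
      by_contra hc
      push Not at hc
      have : n * (D:ℤ) ≤ 0 := mul_nonpos_of_nonpos_of_nonneg hc (by positivity)
      omega
    have : (D:ℤ) ≤ n * D := by nlinarith
    omega
  have hpow : ζ ^ D = 1 := by
    rw [hζ, ← Complex.exp_nat_mul, Complex.exp_eq_one_iff]
    refine ⟨j, ?_⟩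
    field_simp
    push_cast
    ring
  have e : ∀ k ∈ range D, Complex.exp ((((j:ℝ) * ((φ + 2 * Real.pi * k) / D) : ℝ) : ℂ) * Complex.I) =
      Complex.exp ((((j:ℝ) * (φ / D) : ℝ) : ℂ) * Complex.I) * ζ ^ k := by
    intro k _
    rw [hζ, ← Complex.exp_nat_mul, ← Complex.exp_add]
    congr 1
    push_cast
    field_simp
  rw [sum_congr rfl e, ← mul_sum]
  have hg : ∑ k ∈ range D, ζ ^ k = 0 := by
    have := mul_geom_sum ζ D
    rw [hpow, sub_self] at this
    rcases mul_eq_zero.1 this with h | h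
    · exact absurd (sub_eq_zero.1 h) hne
    · exact h
  rw [hg, mul_zero]

theorem sum_cos {D j : ℕ} (h0 : 0 < j) (h1 : j < D) (φ : ℝ) :
    ∑ k ∈ range D, Real.cos ((j:ℝ) * ((φ + 2 * Real.pi * k) / D)) = 0 := by
  have h := congrArg Complex.re (sum_exp h0 h1 φ)
  rw [Complex.re_sum] at h
  simp only [Complex.exp_ofReal_mul_I_re, Complex.zero_re] at h
  exact h

theorem sum_sin {D j : ℕ} (h0 : 0 < j) (h1 : j < D) (φ : ℝ) :
    ∑ k ∈ range D, Real.sin ((j:ℝ) * ((φ + 2 * Real.pi * k) / D)) = 0 := by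
  have h := congrArg Complex.im (sum_exp h0 h1 φ)
  rw [Complex.im_sum] at h
  simp only [Complex.exp_ofReal_mul_I_im, Complex.zero_im] at h
  exact h

end Pool.Agent.Y764.W
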