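import Pool.Agent.Y764.W.W1
import Pool.Agent.H283R3.WidDefs

set_option autoImplicit false

open Finset Polynomial MeasureTheory
open Set (Icc Ioo)

namespace Pool.Agent.Y764.W

open Pool.Agent.H283R3.WidDefs

variable {l : ℕ} {s : ℝ}

/-- left and right ends of the bands in the angle variable -/
noncomputable def An (l : ℕ) (s : ℝ) (i : ℕ) : ℝ := (i * Real.pi + Real.arccos s) / (l + 1)
noncomputable def Bn (l : ℕ) (s : ℝ) (i : ℕ) : ℝ := ((i + 1) * Real.pi - Real.arccos s) / (l + 1)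

noncomputable def al (l : ℕ) (s : ℝ) (i : Fin (l + 1)) : ℝ := -Real.cos (An l s i)
noncomputable def be (l : ℕ) (s : ℝ) (i : Fin (l + 1)) : ℝ := -Real.cos (Bn l s i)

/-- `Tm (-cos ψ) = cos ((l+1) ψ)` -/
noncomputable def Tm (l : ℕ) (x : ℝ) : ℝ := (Chebyshev.T ℝ ((l + 1 : ℕ) : ℤ)).eval (-x)
/-- `Um (-cos ψ) sin ψ = sin ((l+1) ψ)` -/
noncomputable def Um (l : ℕ) (x : ℝ) : ℝ := (Chebyshev.U ℝ (l : ℤ)).eval (-x)

theorem Tm_cos (ψ : ℝ) : Tm l (-Real.cos ψ) = Real.cos ((l + 1) * ψ) := by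
  unfold Tm
  rw [neg_neg, Chebyshev.T_real_cos]
  push_cast
  rfl

theorem Um_cos (ψ : ℝ) : Um l (-Real.cos ψ) * Real.sin ψ = Real.sin ((l + 1) * ψ) := by
  unfold Um
  rw [neg_neg, Chebyshev.U_real_cos]
  push_cast
  rfl

theorem arc_pos (h1 : s < 1) : 0 < Real.arccos s := Real.arccos_pos.2 h1
theorem arc_lt (h0 : 0 < s) : Real.arccos s < Real.pi / 2 := Real.arccos_lt_pi_div_two.2 h0

theorem An_pos (h1 : s < 1) (i : ℕ) : 0 < An l s i := by
  have := arc_pos h1
  have := Real.pi_pos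
  unfold An
  positivity

theorem An_lt_Bn (h0 : 0 < s) (i : ℕ) : An l s i < Bn l s i := by
  have := arc_lt h0
  unfold An Bn
  gcongr ?_ / _
  linarith

theorem Bn_lt_An (h1 : s < 1) (i : ℕ) : Bn l s i < An l s (i + 1) := by
  have := arc_pos h1
  unfold An Bn
  gcongr ?_ / _
  push_cast
  linarith

theorem Bn_lt_pi (h1 : s < 1) {i : ℕ} (hi : i < l + 1) : Bn l s i < Real.pi := by
  have := arc_pos h1
  have hi' : (i:ℝ) + 1 ≤ l + 1 := by exact_mod_cast hi
  unfold Bn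
  rw [div_lt_iff₀ (by positivity)]
  nlinarith [Real.pi_pos]

theorem neg_cos_lt {x y : ℝ} (h0 : 0 ≤ x) (h1 : y ≤ Real.pi) (h : x < y) : -Real.cos x < -Real.cos y := by
  have := Real.cos_lt_cos_of_nonneg_of_le_pi h0 h1 h
  linarith

theorem neg_cos_le {x y : ℝ} (h0 : 0 ≤ x) (h1 : y ≤ Real.pi) (h : x ≤ y) : -Real.cos x ≤ -Real.cos y := by
  have := Real.cos_le_cos_of_nonneg_of_le_pi h0 h1 h
  linarith

theorem isFiniteGap (h0 : 0 < s) (h1 : s < 1) : IsFiniteGap (al l s) (be l s) := by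
  constructor
  · intro i
    exact neg_cos_lt (An_pos h1 _).le (Bn_lt_pi h1 i.2).le (An_lt_Bn h0 _)
  · intro j
    have hj : (j : ℕ) + 1 < l + 1 := by omega
    have : (j.succ : Fin (l + 1)).val = j.val + 1 := rfl
    unfold al be
    rw [this]
    exact neg_cos_lt ((An_pos h1 _).le.trans (An_lt_Bn h0 _).le)
      ((An_lt_Bn h0 _).le.trans (Bn_lt_pi h1 hj).le) (Bn_lt_An h1 _)

/-- the index of the band -/
theorem exists_band (h0 : 0 < s) (h1 : s < 1) {ψ : ℝ} (hψ0 : 0 ≤ ψ) (hψ1 : ψ ≤ Real.pi)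
    (h : |Real.cos ((l + 1) * ψ)| ≤ s) :
    ∃ i : Fin (l + 1), An l s i ≤ ψ ∧ ψ ≤ Bn l s i ∧
      (|Real.cos ((l + 1) * ψ)| < s → An l s i < ψ ∧ ψ < Bn l s i) := by
  have hp := Real.pi_pos
  have hl : (0:ℝ) < l + 1 := by positivity
  have hx0 : 0 ≤ (l + 1) * ψ / Real.pi := by positivity
  set i := ⌊(l + 1) * ψ / Real.pi⌋₊ with hi
  have hi1 : (i:ℝ) ≤ (l + 1) * ψ / Real.pi := Nat.floor_le hx0
  have hi2 : (l + 1) * ψ / Real.pi < i + 1 := Nat.lt_floor_add_one _
  rw [le_div_iff₀ hp] at hi1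
  rw [div_lt_iff₀ hp] at hi2
  set u := (l + 1) * ψ - i * Real.pi with hu
  have hu0 : 0 ≤ u := by linarith
  have hu1 : u < Real.pi := by linarith
  have hcos : |Real.cos ((l + 1) * ψ)| = |Real.cos u| := by
    have : (l + 1) * ψ = u + i * Real.pi := by rw [hu]; ring
    rw [this, Real.cos_add_nat_mul_pi, abs_mul, abs_pow, abs_neg, abs_one, one_pow, one_mul]
  have hcs : Real.cos (Real.arccos s) = s := Real.cos_arccos (by linarith) h1.le
  have ha0 := arc_pos h1
  have ha1 := arc_lt h0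
  have hiD : i < l + 1 := by
    by_contra hc
    push Not at hc
    have hc' : (l:ℝ) + 1 ≤ i := by exact_mod_cast hc
    have : u ≤ 0 := by
      have : (l + 1) * ψ ≤ i * Real.pi := by nlinarith
      linarith
    have hu00 : u = 0 := le_antisymm this hu0
    rw [hcos, hu00, Real.cos_zero, abs_one] at h
    linarith
  rw [hcos] at h ⊢
  have e1 : ψ = (i * Real.pi + u) / (l + 1) := by rw [hu]; field_simp; ring
  have b1 : Real.arccos s ≤ u := by
    by_contra hc
    push Not at hc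
    have := Real.cos_lt_cos_of_nonneg_of_le_pi hu0 (by linarith) hc
    rw [hcs] at this
    linarith [le_abs_self (Real.cos u)]
  have b2 : u ≤ Real.pi - Real.arccos s := by
    by_contra hc
    push Not at hc
    have := Real.cos_lt_cos_of_nonneg_of_le_pi (by linarith) hu1.le hc
    rw [Real.cos_pi_sub, hcs] at this
    linarith [neg_abs_le (Real.cos u)]
  refine ⟨⟨i, hiD⟩, ?_, ?_, ?_⟩
  · unfold An; rw [e1]; gcongr
  · unfold Bn; rw [e1]; gcongr ?_ / _; simp only; linarith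
  · intro hlt
    have c1 : Real.arccos s < u := by
      refine lt_of_le_of_ne b1 fun he => ?_
      rw [← he, hcs, abs_of_pos h0] at hlt
      exact lt_irrefl _ hlt
    have c2 : u < Real.pi - Real.arccos s := by
      refine lt_of_le_of_ne b2 fun he => ?_
      rw [he, Real.cos_pi_sub, hcs, abs_neg, abs_of_pos h0] at hlt
      exact lt_irrefl _ hlt
    constructor
    · unfold An; rw [e1]; gcongr
    · unfold Bn; rw [e1]; gcongr ?_ / _; simp only; linarith

theorem cos_band (h0 : 0 < s) (h1 : s < 1) {ψ : ℝ} {i : ℕ} (ha : An l s i ≤ ψ) (hb : ψ ≤ Bn l s i) :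
    |Real.cos ((l + 1) * ψ)| ≤ s ∧ (An l s i < ψ → ψ < Bn l s i → |Real.cos ((l + 1) * ψ)| < s) ∧
      0 < (-1) ^ i * Real.sin ((l + 1) * ψ) := by
  have hp := Real.pi_pos
  have hl : (0:ℝ) < l + 1 := by positivity
  set u := (l + 1) * ψ - i * Real.pi with hu
  have hcos : |Real.cos ((l + 1) * ψ)| = |Real.cos u| := by
    have : (l + 1) * ψ = u + i * Real.pi := by rw [hu]; ring
    rw [this, Real.cos_add_nat_mul_pi, abs_mul, abs_pow, abs_neg, abs_one, one_pow, one_mul]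
  have hsin : (-1) ^ i * Real.sin ((l + 1) * ψ) = Real.sin u := by
    have : (l + 1) * ψ = u + i * Real.pi := by rw [hu]; ring
    rw [this, Real.sin_add_nat_mul_pi, ← mul_assoc, ← mul_pow]
    norm_num
  have hcs : Real.cos (Real.arccos s) = s := Real.cos_arccos (by linarith) h1.le
  have ha0 := arc_pos h1
  have ha1 := arc_lt h0
  unfold An at *
  unfold Bn at *
  rw [div_le_iff₀ hl] at ha
  rw [le_div_iff₀ hl] at hb
  have c1 : Real.arccos s ≤ u := by rw [hu]; nlinarith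
  have c2 : u ≤ Real.pi - Real.arccos s := by rw [hu]; nlinarith
  refine ⟨?_, ?_, ?_⟩
  · rw [hcos, abs_le]
    constructor
    · have := Real.cos_le_cos_of_nonneg_of_le_pi (by linarith) (by linarith) c2
      rw [Real.cos_pi_sub, hcs] at this
      exact this
    · have := Real.cos_le_cos_of_nonneg_of_le_pi ha0.le (by linarith) c1
      rw [hcs] at this
      exact this
  · intro ha' hb'
    rw [div_lt_iff₀ hl] at ha'
    rw [lt_div_iff₀ hl] at hb'
    have c1 : Real.arccos s < u := by rw [hu]; nlinarith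
    have c2 : u < Real.pi - Real.arccos s := by rw [hu]; nlinarith
    rw [hcos, abs_lt]
    constructor
    · have := Real.cos_lt_cos_of_nonneg_of_le_pi (by linarith) (by linarith) c2
      rw [Real.cos_pi_sub, hcs] at this
      exact this
    · have := Real.cos_lt_cos_of_nonneg_of_le_pi ha0.le (by linarith) c1
      rw [hcs] at this
      exact this
  · rw [hsin]
    exact Real.sin_pos_of_pos_of_lt_pi (by linarith) (by linarith)

def KK (l : ℕ) (s : ℝ) : Set ℝ := {x | |x| ≤ 1 ∧ |Tm l x| ≤ s}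
def OO (l : ℕ) (s : ℝ) : Set ℝ := {x | |x| < 1 ∧ |Tm l x| < s}

theorem psi_facts {x : ℝ} (hx : |x| ≤ 1) : 0 ≤ Real.arccos (-x) ∧ Real.arccos (-x) ≤ Real.pi ∧
    -Real.cos (Real.arccos (-x)) = x := by
  rw [abs_le] at hx
  refine ⟨Real.arccos_nonneg _, Real.arccos_le_pi _, ?_⟩
  rw [Real.cos_arccos (by linarith) (by linarith), neg_neg]

/-- points of `OO` lie in open bands -/
theorem open_band (h0 : 0 < s) (h1 : s < 1) {x : ℝ} (hx : x ∈ OO l s) :
    ∃ i : Fin (l + 1), x ∈ Ioo (al l s i) (be l s i) := by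
  obtain ⟨p0, p1, p2⟩ := psi_facts hx.1.le
  set ψ := Real.arccos (-x)
  have hc : |Real.cos ((l + 1) * ψ)| < s := by rw [← Tm_cos, p2]; exact hx.2
  obtain ⟨i, -, -, hi⟩ := exists_band h0 h1 p0 p1 hc.le
  obtain ⟨i1, i2⟩ := hi hc
  refine ⟨i, ?_, ?_⟩
  · rw [← p2]; exact neg_cos_lt (An_pos h1 _).le p1 i1
  · rw [← p2]; exact neg_cos_lt p0 (Bn_lt_pi h1 i.2).le i2

theorem closed_band (h0 : 0 < s) (h1 : s < 1) {x : ℝ} (hx : x ∈ KK l s) :
    ∃ i : Fin (l + 1), x ∈ Icc (al l s i) (be l s i) := by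
  obtain ⟨p0, p1, p2⟩ := psi_facts hx.1
  set ψ := Real.arccos (-x)
  have hc : |Real.cos ((l + 1) * ψ)| ≤ s := by rw [← Tm_cos, p2]; exact hx.2
  obtain ⟨i, i1, i2, -⟩ := exists_band h0 h1 p0 p1 hc
  refine ⟨i, ?_, ?_⟩
  · rw [← p2]; exact neg_cos_le (An_pos h1 _).le p1 i1
  · rw [← p2]; exact neg_cos_le p0 (Bn_lt_pi h1 i.2).le i2

/-- the angle of a point of a band -/
theorem angle_of_band (h0 : 0 < s) (h1 : s < 1) {i : Fin (l + 1)} {x : ℝ}
    (hx : x ∈ Icc (al l s i) (be l s i)) :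
    |x| < 1 ∧ 0 < Real.arccos (-x) ∧ Real.arccos (-x) < Real.pi ∧
    -Real.cos (Real.arccos (-x)) = x ∧ An l s i ≤ Real.arccos (-x) ∧ Real.arccos (-x) ≤ Bn l s i ∧
    (x ∈ Ioo (al l s i) (be l s i) → An l s i < Real.arccos (-x) ∧ Real.arccos (-x) < Bn l s i) := by
  have hp := Real.pi_pos
  have hA := An_pos (l := l) h1 i
  have hB := Bn_lt_pi h1 i.2
  have hAB := An_lt_Bn (l := l) h0 i
  have g1 : -1 < al l s i := by
    have := neg_cos_lt le_rfl (hAB.le.trans hB.le) hA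
    rw [Real.cos_zero] at this
    exact this
  have g2 : be l s i < 1 := by
    have := neg_cos_lt (hA.le.trans hAB.le) le_rfl hB
    rw [Real.cos_pi, neg_neg] at this
    exact this
  have hx1 : |x| < 1 := by
    rw [abs_lt]
    exact ⟨g1.trans_le hx.1, hx.2.trans_lt g2⟩
  obtain ⟨p0, p1, p2⟩ := psi_facts hx1.le
  generalize Real.arccos (-x) = ψ at p0 p1 p2 ⊢
  subst p2
  have a1 : An l s i ≤ ψ := by
    by_contra hc
    push Not at hc
    have := neg_cos_lt p0 (hAB.le.trans hB.le) hc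
    exact absurd hx.1 (not_le.2 this)
  have a2 : ψ ≤ Bn l s i := by
    by_contra hc
    push Not at hc
    have := neg_cos_lt (hA.le.trans hAB.le) p1 hc
    exact absurd hx.2 (not_le.2 this)
  refine ⟨hx1, by linarith, by linarith, rfl, a1, a2, fun hxo => ⟨?_, ?_⟩⟩
  · refine lt_of_le_of_ne a1 fun he => ?_
    rw [← he] at hxo
    exact lt_irrefl _ hxo.1
  · refine lt_of_le_of_ne a2 fun he => ?_
    rw [he] at hxo
    exact lt_irrefl _ hxo.2

theorem bands_eq (h0 : 0 < s) (h1 : s < 1) : bands (al l s) (be l s) = KK l s := by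
  ext x
  unfold bands
  rw [Set.mem_iUnion]
  constructor
  · rintro ⟨i, hi⟩
    obtain ⟨p1, -, -, p2, p3, p4, -⟩ := angle_of_band h0 h1 hi
    refine ⟨p1.le, ?_⟩
    have := (cos_band h0 h1 p3 p4).1
    rw [← Tm_cos, p2] at this
    exact this
  · intro hx
    exact closed_band h0 h1 hx

theorem mem_OO (h0 : 0 < s) (h1 : s < 1) {i : Fin (l + 1)} {x : ℝ}
    (hx : x ∈ Ioo (al l s i) (be l s i)) : x ∈ OO l s := by
  obtain ⟨p1, -, -, p2, p3, p4, p5⟩ := angle_of_band h0 h1 (Set.Ioo_subset_Icc_self hx)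
  refine ⟨p1, ?_⟩
  have := (cos_band h0 h1 p3 p4).2.1 (p5 hx).1 (p5 hx).2
  rw [← Tm_cos, p2] at this
  exact this

theorem OO_sub : OO l s ⊆ KK l s := fun _ hx => ⟨hx.1.le, hx.2.le⟩

theorem continuous_Tm : Continuous (Tm l) := by
  unfold Tm
  exact (Polynomial.continuous _).comp continuous_neg

theorem continuous_Um : Continuous (Um l) := by
  unfold Um
  exact (Polynomial.continuous _).comp continuous_neg

theorem isOpen_OO : IsOpen (OO l s) := by
  unfold OO
  exact (isOpen_lt continuous_abs continuous_const).inter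
    (isOpen_lt continuous_Tm.abs continuous_const)

theorem isClosed_KK : IsClosed (KK l s) := by
  unfold KK
  exact (isClosed_le continuous_abs continuous_const).inter
    (isClosed_le continuous_Tm.abs continuous_const)

theorem KK_ae (h0 : 0 < s) (h1 : s < 1) : KK l s =ᵐ[volume] OO l s := by
  have hd : KK l s \ OO l s ⊆ (Set.range (al l s) ∪ Set.range (be l s)) := by
    rintro x ⟨hx, hn⟩
    obtain ⟨i, hi⟩ := closed_band h0 h1 hx
    by_contra hc
    apply hn
    apply mem_OO h0 h1 (i := i)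
    rw [Set.mem_union, not_or] at hc
    refine ⟨lt_of_le_of_ne hi.1 fun he => hc.1 ⟨i, he⟩, lt_of_le_of_ne hi.2 fun he => hc.2 ⟨i, he.symm⟩⟩
  have hz : volume (KK l s \ OO l s) = 0 :=
    measure_mono_null hd (((Set.finite_range _).union (Set.finite_range _)).measure_zero _)
  apply (ae_eq_set).2
  refine ⟨hz, ?_⟩
  rw [Set.sdiff_eq_empty.2 OO_sub]
  exact measure_empty

/-! the fibres -/

noncomputable def ph (s a : ℝ) : ℝ := Real.arccos (s * Real.cos a)
noncomputable def th (l : ℕ) (s : ℝ) (k : ℕ) (a : ℝ) : ℝ := (ph s a + 2 * Real.pi * k) / ((l + 1 : ℕ) : ℝ)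
noncomputable def Z (l : ℕ) (s : ℝ) (k : ℕ) (a : ℝ) : ℝ := -Real.cos (th l s k a)

theorem scos (h0 : 0 < s) (h1 : s < 1) (a : ℝ) : -1 < s * Real.cos a ∧ s * Real.cos a < 1 := by
  have := Real.neg_one_le_cos a
  have := Real.cos_le_one a
  constructor <;> nlinarith

theorem ph_mem (h0 : 0 < s) (h1 : s < 1) (a : ℝ) : 0 < ph s a ∧ ph s a < Real.pi := by
  obtain ⟨a1, a2⟩ := scos h0 h1 a
  exact ⟨Real.arccos_pos.2 a2, by
    refine lt_of_le_of_ne (Real.arccos_le_pi _) fun h => ?_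
    rw [ph, Real.arccos_eq_pi] at h
    linarith⟩

theorem cos_ph (h0 : 0 < s) (h1 : s < 1) (a : ℝ) : Real.cos (ph s a) = s * Real.cos a := by
  obtain ⟨a1, a2⟩ := scos h0 h1 a
  exact Real.cos_arccos a1.le a2.le

theorem sin_ph (a : ℝ) : Real.sin (ph s a) = Real.sqrt (1 - (s * Real.cos a) ^ 2) := by
  unfold ph
  exact Real.sin_arccos _

theorem mul_th (k : ℕ) (a : ℝ) : ((l:ℝ) + 1) * th l s k a = ph s a + k * (2 * Real.pi) := by
  unfold th
  push_cast
  have : (l:ℝ) + 1 ≠ 0 := by positivity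
  field_simp

theorem cos_th (h0 : 0 < s) (h1 : s < 1) (k : ℕ) (a : ℝ) :
    Real.cos (((l:ℝ) + 1) * th l s k a) = s * Real.cos a := by
  rw [mul_th, Real.cos_add_nat_mul_two_pi, cos_ph h0 h1]

theorem sin_th (k : ℕ) (a : ℝ) :
    Real.sin (((l:ℝ) + 1) * th l s k a) = Real.sin (ph s a) := by
  rw [mul_th, Real.sin_add_nat_mul_two_pi]

theorem Tm_Z (h0 : 0 < s) (h1 : s < 1) (k : ℕ) (a : ℝ) : Tm l (Z l s k a) = s * Real.cos a := by
  unfold Z
  rw [Tm_cos, cos_th h0 h1]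

theorem Um_Z (k : ℕ) (a : ℝ) : Um l (Z l s k a) * Real.sin (th l s k a) = Real.sin (ph s a) := by
  unfold Z
  rw [Um_cos, sin_th]

theorem sin_ph_pos (h0 : 0 < s) (h1 : s < 1) (a : ℝ) : 0 < Real.sin (ph s a) :=
  Real.sin_pos_of_pos_of_lt_pi (ph_mem h0 h1 a).1 (ph_mem h0 h1 a).2

theorem cos_abs_lt {a : ℝ} (ha : a ∈ Ioo 0 Real.pi) : |Real.cos a| < 1 := by
  have := Real.sin_pos_of_pos_of_lt_pi ha.1 ha.2
  have h2 := Real.sin_sq_add_cos_sq a
  rw [← sq_lt_one_iff_abs_lt_one]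
  nlinarith

theorem Z_mem (h0 : 0 < s) (h1 : s < 1) (k : ℕ) {a : ℝ} (ha : a ∈ Ioo 0 Real.pi) : Z l s k a ∈ OO l s := by
  have hs : Real.sin (th l s k a) ≠ 0 := by
    intro h
    have := Um_Z (l := l) (s := s) k a
    rw [h, mul_zero] at this
    exact (sin_ph_pos h0 h1 a).ne this
  constructor
  · unfold Z
    rw [abs_neg, ← sq_lt_one_iff_abs_lt_one]
    have h2 := Real.sin_sq_add_cos_sq (th l s k a)
    have : 0 < Real.sin (th l s k a) ^ 2 := by positivity
    linarith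
  · rw [Tm_Z h0 h1, abs_mul, abs_of_pos h0]
    have := cos_abs_lt ha
    nlinarith

theorem Z_inj (h0 : 0 < s) (h1 : s < 1) {k k' : ℕ} (hk : k < l + 1) (hk' : k' < l + 1) {a a' : ℝ}
    (ha : a ∈ Ioo 0 Real.pi) (ha' : a' ∈ Ioo 0 Real.pi) (h : Z l s k a = Z l s k' a') : k = k' ∧ a = a' := by
  have h2 : s * Real.cos a = s * Real.cos a' := by
    rw [← Tm_Z (l := l) h0 h1 k a, ← Tm_Z (l := l) h0 h1 k' a', h]
  have h3 : Real.cos a = Real.cos a' := mul_left_cancel₀ h0.ne' h2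
  have h4 : a = a' := Real.injOn_cos ⟨ha.1.le, ha.2.le⟩ ⟨ha'.1.le, ha'.2.le⟩ h3
  refine ⟨?_, h4⟩
  unfold Z at h
  exact cos_inj_aux (Nat.succ_pos l) hk hk' (ph_mem h0 h1 a).1 (ph_mem h0 h1 a).2 (ph_mem h0 h1 a').1
    (ph_mem h0 h1 a').2 (neg_injective h)

theorem Z_surj (h0 : 0 < s) (h1 : s < 1) {x : ℝ} (hx : x ∈ OO l s) :
    ∃ k, k < l + 1 ∧ ∃ a ∈ Ioo 0 Real.pi, Z l s k a = x := by
  have hp := Real.pi_pos
  obtain ⟨p0, p1, p2⟩ := psi_facts hx.1.le
  generalize Real.arccos (-x) = ψ at p0 p1 p2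
  subst p2
  have hc : |Real.cos ((l + 1) * ψ)| < s := by rw [← Tm_cos]; exact hx.2
  obtain ⟨c1, c2⟩ := abs_lt.1 hc
  set a := Real.arccos (Real.cos ((l + 1) * ψ) / s) with ha
  have b1 : -1 < Real.cos ((l + 1) * ψ) / s := by rw [lt_div_iff₀ h0]; linarith
  have b2 : Real.cos ((l + 1) * ψ) / s < 1 := by rw [div_lt_one h0]; exact c2
  have ha0 : a ∈ Ioo 0 Real.pi := ⟨Real.arccos_pos.2 b2, by
    refine lt_of_le_of_ne (Real.arccos_le_pi _) fun h => ?_
    rw [Real.arccos_eq_pi] at h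
    linarith⟩
  have hca : s * Real.cos a = Real.cos ((l + 1) * ψ) := by
    rw [ha, Real.cos_arccos b1.le b2.le]
    field_simp
  have hph := ph_mem h0 h1 a
  have hcp : Real.cos (ph s a) = Real.cos ((l + 1) * ψ) := by rw [cos_ph h0 h1, hca]
  have hl : (0:ℝ) < l + 1 := by positivity
  rw [Real.cos_eq_cos_iff] at hcp
  obtain ⟨m, hm⟩ := hcp
  have hψ2 : (l + 1) * ψ ≤ (l + 1) * Real.pi := by gcongr
  have hψ3 : 0 ≤ (l + 1) * ψ := by positivity
  rcases hm with hm | hm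
  · have m0 : (-1:ℝ) < m := by
      by_contra hcc
      push Not at hcc
      nlinarith [hph.1, hph.2]
    have m0' : 0 ≤ m := by
      have : (-1:ℤ) < m := by exact_mod_cast m0
      omega
    have m1 : (m:ℝ) < l + 1 := by
      by_contra hcc
      push Not at hcc
      nlinarith [hph.1, hph.2]
    obtain ⟨k, hk⟩ := Int.eq_ofNat_of_zero_le m0'
    subst hk
    have hk : k < l + 1 := by exact_mod_cast m1
    refine ⟨k, hk, a, ha0, ?_⟩
    unfold Z th
    congr 2
    push_cast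
    rw [div_eq_iff hl.ne']
    push_cast at hm
    linarith
  · have m0 : (0:ℝ) < m := by
      by_contra hcc
      push Not at hcc
      nlinarith [hph.1, hph.2]
    have m1 : (m:ℝ) < l + 2 := by
      by_contra hcc
      push Not at hcc
      nlinarith [hph.1, hph.2]
    have m0' : 0 < m := by exact_mod_cast m0
    have m1' : m ≤ l + 1 := by
      have : m < l + 2 := by exact_mod_cast m1
      omega
    obtain ⟨k, hk⟩ := Int.eq_ofNat_of_zero_le m0'.le
    subst hk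
    have hk0 : 0 < k := by exact_mod_cast m0'
    have hk1 : k ≤ l + 1 := by exact_mod_cast m1'
    refine ⟨l + 1 - k, by omega, a, ha0, ?_⟩
    unfold Z th
    have e : (ph s a + 2 * Real.pi * ((l + 1 - k : ℕ) : ℝ)) / ((l + 1 : ℕ) : ℝ) = 2 * Real.pi - ψ := by
      rw [Nat.cast_sub hk1]
      push_cast
      rw [div_eq_iff hl.ne']
      push_cast at hm
      linarith
    rw [e, Real.cos_two_pi_sub]

theorem OO_eq (h0 : 0 < s) (h1 : s < 1) : OO l s = ⋃ k ∈ range (l + 1), Z l s k '' Ioo 0 Real.pi := by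
  ext x
  rw [Set.mem_iUnion₂]
  constructor
  · intro hx
    obtain ⟨k, hk, a, ha, rfl⟩ := Z_surj h0 h1 hx
    exact ⟨k, mem_range.2 hk, a, ha, rfl⟩
  · rintro ⟨k, hk, a, ha, rfl⟩
    exact Z_mem h0 h1 k ha

/-! change of variables -/

noncomputable def Zd (l : ℕ) (s : ℝ) (k : ℕ) (a : ℝ) : ℝ :=
  Real.sin (th l s k a) * (s * Real.sin a / Real.sin (ph s a) / ((l + 1 : ℕ) : ℝ))

theorem hasDerivAt_Z (h0 : 0 < s) (h1 : s < 1) (k : ℕ) (a : ℝ) :
    HasDerivAt (Z l s k) (Zd l s k a) a := by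
  obtain ⟨a1, a2⟩ := scos h0 h1 a
  have d1 : HasDerivAt (fun a => s * Real.cos a) (s * (-Real.sin a)) a := (Real.hasDerivAt_cos a).const_mul s
  have d2 : HasDerivAt (ph s) (-(1 / Real.sqrt (1 - (s * Real.cos a) ^ 2)) * (s * (-Real.sin a))) a :=
    (Real.hasDerivAt_arccos a1.ne' a2.ne).comp a d1
  have d3 : HasDerivAt (th l s k) ((-(1 / Real.sqrt (1 - (s * Real.cos a) ^ 2)) * (s * (-Real.sin a))) /
      ((l + 1 : ℕ) : ℝ)) a := (d2.add_const _).div_const _
  have d4 := d3.cos.neg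
  refine d4.congr_deriv ?_
  unfold Zd
  rw [sin_ph]
  ring

noncomputable def w (l : ℕ) (s x : ℝ) : ℝ := |Um l x| / (Real.pi * Real.sqrt (s ^ 2 - Tm l x ^ 2))

theorem measurable_w : Measurable (w l s) := by
  unfold w
  have h1 : Measurable (Um l) := continuous_Um.measurable
  have h2 : Measurable (Tm l) := continuous_Tm.measurable
  have h3 : Measurable fun x => |Um l x| := h1.abs
  have h4 : Measurable fun x => Real.sqrt (s ^ 2 - Tm l x ^ 2) :=
    (measurable_const.sub (h2.pow_const 2)).sqrt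
  exact h3.div (h4.const_mul _)

theorem w_nonneg (x : ℝ) : 0 ≤ w l s x := by
  unfold w
  have := Real.pi_pos
  positivity

theorem w_Z (h0 : 0 < s) (h1 : s < 1) (k : ℕ) {a : ℝ} (ha : a ∈ Ioo 0 Real.pi) :
    |Zd l s k a| * w l s (Z l s k a) = 1 / (((l:ℝ) + 1) * Real.pi) := by
  have hp := Real.pi_pos
  have hsa := Real.sin_pos_of_pos_of_lt_pi ha.1 ha.2
  have hsp := sin_ph_pos h0 h1 a
  have hU := Um_Z (l := l) (s := s) k a
  have hU' : |Um l (Z l s k a)| * |Real.sin (th l s k a)| = Real.sin (ph s a) := by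
    rw [← abs_mul, hU, abs_of_pos hsp]
  have hl : (0:ℝ) < l + 1 := by positivity
  have e1 : Real.sqrt (s ^ 2 - Tm l (Z l s k a) ^ 2) = s * Real.sin a := by
    rw [Tm_Z h0 h1, show s ^ 2 - (s * Real.cos a) ^ 2 = (s * Real.sin a) ^ 2 by
      linear_combination (-(s ^ 2)) * (Real.sin_sq_add_cos_sq a)]
    exact Real.sqrt_sq (by positivity)
  unfold w Zd
  rw [e1, abs_mul, abs_of_pos (show 0 < s * Real.sin a / Real.sin (ph s a) / ((l + 1 : ℕ) : ℝ) by positivity)]
  push_cast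
  have e2 : |Real.sin (th l s k a)| * (s * Real.sin a / Real.sin (ph s a) / ((l:ℝ) + 1)) *
      (|Um l (Z l s k a)| / (Real.pi * (s * Real.sin a))) =
      (|Um l (Z l s k a)| * |Real.sin (th l s k a)|) * (1 / (Real.sin (ph s a) * ((l + 1) * Real.pi))) := by
    field_simp
  rw [e2, hU']
  field_simp

/-- the equilibrium measure -/
noncomputable def muK (l : ℕ) (s : ℝ) : Measure ℝ :=
  (volume.restrict (KK l s)).withDensity (fun x => ENNReal.ofReal (w l s x))

theorem continuous_Z (h0 : 0 < s) (h1 : s < 1) (k : ℕ) : Continuous (Z l s k) :=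
  continuous_iff_continuousAt.2 fun a => (hasDerivAt_Z h0 h1 k a).continuousAt

theorem lint_muK (h0 : 0 < s) (h1 : s < 1) {g : ℝ → ENNReal} (hg : Measurable g) :
    ∫⁻ x, g x ∂(muK l s) = ENNReal.ofReal (1 / (((l:ℝ) + 1) * Real.pi)) *
      ∫⁻ a in Ioo 0 Real.pi, ∑ k ∈ range (l + 1), g (Z l s k a) := by
  have hm : Measurable (fun x => ENNReal.ofReal (w l s x)) := ENNReal.measurable_ofReal.comp measurable_w
  unfold muK
  rw [lintegral_withDensity_eq_lintegral_mul _ hm hg, Measure.restrict_congr_set (KK_ae h0 h1), OO_eq h0 h1,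
    lintegral_biUnion_finset]
  · have hsum : ∫⁻ a in Ioo 0 Real.pi, ∑ k ∈ range (l + 1), g (Z l s k a) =
        ∑ k ∈ range (l + 1), ∫⁻ a in Ioo 0 Real.pi, g (Z l s k a) :=
      lintegral_finsetSum _ (fun k _ => hg.comp (continuous_Z h0 h1 k).measurable)
    rw [hsum, mul_sum]
    apply sum_congr rfl
    intro k hk
    have hcm : Measurable (fun a => g (Z l s k a)) := hg.comp (continuous_Z h0 h1 k).measurable
    rw [lintegral_image_eq_lintegral_abs_deriv_mul measurableSet_Ioo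
      (fun x _ => (hasDerivAt_Z h0 h1 k x).hasDerivWithinAt)
      (fun a ha a' ha' h => (Z_inj h0 h1 (mem_range.1 hk) (mem_range.1 hk) ha ha' h).2),
      ← lintegral_const_mul _ hcm]
    apply setLIntegral_congr_fun measurableSet_Ioo
    intro a ha
    show ENNReal.ofReal |Zd l s k a| * (ENNReal.ofReal (w l s (Z l s k a)) * g (Z l s k a)) =
      ENNReal.ofReal (1 / (((l:ℝ) + 1) * Real.pi)) * g (Z l s k a)
    rw [← mul_assoc, ← ENNReal.ofReal_mul (abs_nonneg _), w_Z h0 h1 k ha]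
  · intro k hk k' hk' hne
    rw [Function.onFun, Set.disjoint_left]
    rintro x ⟨a, ha, rfl⟩ ⟨a', ha', h⟩
    have hk1 : k < l + 1 := by simpa using hk
    have hk1' : k' < l + 1 := by simpa using hk'
    exact hne (Z_inj h0 h1 hk1' hk1 ha' ha h).1.symm
  · intro k hk
    exact measurableSet_Ioo.image_of_continuousOn_injOn (continuous_Z h0 h1 k).continuousOn
      (fun a ha a' ha' h => (Z_inj h0 h1 (mem_range.1 hk) (mem_range.1 hk) ha ha' h).2)

end Pool.Agent.Y764.W
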