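import Pool.Agent.Y764.W.W2
import Pool.Agent.H283R3.Wid4

set_option autoImplicit false

open Finset Polynomial MeasureTheory
open Set (Icc Ioo)
open scoped ENNReal

namespace Pool.Agent.Y764.W

open Pool.Agent.H283R3.WidDefs Pool.Agent.H283R3.Wid
open Pool.Agent.Helper68.LC (Lam)

variable {l : ℕ} {s : ℝ}

/-- `∫ log |t - s cos a| da = π log (s/2)` for `|t| ≤ s` -/
theorem J_s (h0 : 0 < s) {t : ℝ} (ht : |t| ≤ s) :
    IntegrableOn (fun a => Real.log |t - s * Real.cos a|) (Ioo 0 Real.pi) ∧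
    ∫ a in Ioo 0 Real.pi, Real.log |t - s * Real.cos a| = Real.pi * Real.log (s / 2) := by
  have hpi := Real.pi_pos
  rw [abs_le] at ht
  obtain ⟨i, e⟩ := J_in (t := 2 * t / s) (by rw [le_div_iff₀ h0]; linarith) (by rw [div_le_iff₀ h0]; linarith)
  have i' : IntegrableOn (fun θ => Real.log (abs (2 * t / s - 2 * Real.cos θ))) (Ioo 0 Real.pi) :=
    (intervalIntegrable_iff_integrableOn_Ioo_of_le hpi.le).1 i
  have e' : ∫ θ in Ioo 0 Real.pi, Real.log (abs (2 * t / s - 2 * Real.cos θ)) = 0 := by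
    rw [← integral_Ioc_eq_integral_Ioo, ← intervalIntegral.integral_of_le hpi.le, e]
  have hae : ∀ᵐ θ ∂(volume.restrict (Ioo 0 Real.pi)), Real.log |t - s * Real.cos θ| =
      Real.log (s / 2) + Real.log (abs (2 * t / s - 2 * Real.cos θ)) := by
    filter_upwards [ae_restrict_of_ae (ae_cos_ne (2 * t / s))] with θ h2
    have e1 : t - s * Real.cos θ = s / 2 * (2 * t / s - 2 * Real.cos θ) := by
      field_simp
    rw [e1, abs_mul, abs_of_pos (by positivity : 0 < s / 2), Real.log_mul (by positivity) (abs_pos.2 h2).ne']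
  have ic : IntegrableOn (fun _ : ℝ => Real.log (s / 2)) (Ioo 0 Real.pi) := integrableOn_const (by simp)
  constructor
  · exact (ic.add i').congr (by filter_upwards [hae] with θ h using h.symm)
  · rw [integral_congr_ae hae, integral_add ic i', e', setIntegral_const]
    simp [hpi.le]

theorem OO_abs {x : ℝ} (hx : x ∈ KK l s) : |x| ≤ 1 := hx.1

theorem KK_dist' {x y : ℝ} (hx : x ∈ KK l s) (hy : y ∈ KK l s) : abs (x - y) ≤ 2 := by
  have h1 := hx.1
  have h2 := hy.1
  rw [abs_le] at *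
  constructor <;> linarith [h1.1, h1.2, h2.1, h2.2]

theorem prod_Z (h0 : 0 < s) (h1 : s < 1) (x a : ℝ) :
    |Tm l x - s * Real.cos a| = 2 ^ l * ∏ k ∈ range (l + 1), |x - Z l s k a| := by
  have h := prodform (Nat.succ_pos l) (ph_mem h0 h1 a).1 (ph_mem h0 h1 a).2 (-x)
  rw [cos_ph h0 h1] at h
  have h' : Tm l x - s * Real.cos a = 2 ^ l * ∏ k ∈ range (l + 1), (-x - Real.cos (th l s k a)) := h
  rw [h', abs_mul, abs_of_pos (by positivity : (0:ℝ) < 2 ^ l), Finset.abs_prod]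
  congr 1
  apply prod_congr rfl
  intro k _
  unfold Z
  rw [← abs_neg]
  congr 1
  ring

theorem sum_kap (h0 : 0 < s) (h1 : s < 1) {x a : ℝ} (hx : |x| ≤ 1) (ha : a ∈ Ioo 0 Real.pi)
    (hne : Tm l x - s * Real.cos a ≠ 0) :
    0 ≤ (4 * l + 2) * Real.log 2 - 2 * Real.log |Tm l x - s * Real.cos a| ∧
    ∑ k ∈ range (l + 1), kap x (Z l s k a) =
      ENNReal.ofReal ((4 * l + 2) * Real.log 2 - 2 * Real.log |Tm l x - s * Real.cos a|) := by
  have hp := prod_Z (l := l) h0 h1 x a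
  have hpos : 0 < |Tm l x - s * Real.cos a| := abs_pos.2 hne
  rw [hp] at hpos
  have hprod : ∏ k ∈ range (l + 1), |x - Z l s k a| ≠ 0 := right_ne_zero_of_mul hpos.ne'
  have hz : ∀ k ∈ range (l + 1), |x - Z l s k a| ≠ 0 := fun k hk => Finset.prod_ne_zero_iff.1 hprod k hk
  have ht : ∀ k ∈ range (l + 1), 0 ≤ 2 * Real.log 2 - 2 * Real.log |x - Z l s k a| := by
    intro k hk
    apply term_nonneg
    · have hZ := (Z_mem (l := l) h0 h1 k ha).1
      rw [abs_lt] at hZ
      rw [abs_le] at *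
      constructor <;> linarith [hx.1, hx.2, hZ.1, hZ.2]
    · exact fun h => hz k hk (by rw [h, sub_self, abs_zero])
  have e : (4 * l + 2) * Real.log 2 - 2 * Real.log |Tm l x - s * Real.cos a| =
      ∑ k ∈ range (l + 1), (2 * Real.log 2 - 2 * Real.log |x - Z l s k a|) := by
    have e' : ∑ k ∈ range (l + 1), 2 * Real.log |x - Z l s k a| =
        2 * ∑ k ∈ range (l + 1), Real.log |x - Z l s k a| := (mul_sum _ _ _).symm
    rw [hp, Real.log_mul (by positivity) hprod, Real.log_pow, Real.log_prod hz, sum_sub_distrib, e', sum_const,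
      card_range, nsmul_eq_mul]
    push_cast
    ring
  constructor
  · rw [e]; exact sum_nonneg ht
  · rw [e, ENNReal.ofReal_sum_of_nonneg ht]
    rfl

/-- the constant value of the potential -/
noncomputable def CC (l : ℕ) (s : ℝ) : ℝ := 4 * Real.log 2 - 2 / (l + 1) * Real.log s

theorem CC_pos (h0 : 0 < s) (h1 : s < 1) : 0 < CC l s := by
  unfold CC
  have a1 : 0 < Real.log 2 := Real.log_pos (by norm_num)
  have a2 : Real.log s < 0 := Real.log_neg h0 h1
  have : 2 / ((l:ℝ) + 1) * Real.log s < 0 := mul_neg_of_pos_of_neg (by positivity) a2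
  linarith

theorem pot_K (h0 : 0 < s) (h1 : s < 1) {x : ℝ} (hx : x ∈ KK l s) :
    ∫⁻ y, kap x y ∂(muK l s) = ENNReal.ofReal (CC l s) := by
  have hpi := Real.pi_pos
  obtain ⟨hi, hv⟩ := J_s h0 hx.2
  have hF : IntegrableOn (fun a => (4 * l + 2) * Real.log 2 - 2 * Real.log |Tm l x - s * Real.cos a|)
      (Ioo 0 Real.pi) := by
    apply Integrable.sub
    · exact integrableOn_const (by simp)
    · exact hi.const_mul 2
  have hae : ∀ᵐ a ∂(volume.restrict (Ioo 0 Real.pi)), a ∈ Ioo 0 Real.pi ∧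
      Tm l x - s * Real.cos a ≠ 0 := by
    filter_upwards [ae_restrict_mem measurableSet_Ioo, ae_restrict_of_ae (ae_cos_ne (2 * Tm l x / s))]
      with a h1 h2
    refine ⟨h1, fun h => h2 ?_⟩
    have : 2 * Tm l x / s - 2 * Real.cos a = 2 / s * (Tm l x - s * Real.cos a) := by field_simp
    rw [this, h, mul_zero]
  have e1 : ∫⁻ a in Ioo 0 Real.pi, ∑ k ∈ range (l + 1), kap x (Z l s k a) =
      ∫⁻ a in Ioo 0 Real.pi, ENNReal.ofReal ((4 * l + 2) * Real.log 2 -
        2 * Real.log |Tm l x - s * Real.cos a|) := by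
    apply lintegral_congr_ae
    filter_upwards [hae] with a ha using (sum_kap h0 h1 hx.1 ha.1 ha.2).2
  have hnn : 0 ≤ᵐ[volume.restrict (Ioo 0 Real.pi)] (fun a => (4 * l + 2) * Real.log 2 -
      2 * Real.log |Tm l x - s * Real.cos a|) := by
    filter_upwards [hae] with a ha using (sum_kap h0 h1 hx.1 ha.1 ha.2).1
  have e2 : ∫ a in Ioo 0 Real.pi, ((4 * l + 2) * Real.log 2 - 2 * Real.log |Tm l x - s * Real.cos a|) =
      Real.pi * ((4 * l + 2) * Real.log 2) - 2 * (Real.pi * Real.log (s / 2)) := by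
    have c1 : ∫ a in Ioo 0 Real.pi, 2 * Real.log |Tm l x - s * Real.cos a| =
        2 * (Real.pi * Real.log (s / 2)) := by
      rw [integral_const_mul, hv]
    rw [integral_sub (integrable_const _) (hi.const_mul 2), c1, setIntegral_const]
    simp [hpi.le]
  rw [lint_muK h0 h1 (measurable_kap x), e1, ← ofReal_integral_eq_lintegral_ofReal hF hnn, e2,
      ← ENNReal.ofReal_mul (by positivity)]
  congr 1
  unfold CC
  rw [Real.log_div h0.ne' (by norm_num)]
  have hl : (l:ℝ) + 1 ≠ 0 := by positivity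
  field_simp
  ring

theorem prob_muK (h0 : 0 < s) (h1 : s < 1) : IsProbabilityMeasure (muK l s) := by
  have hpi := Real.pi_pos
  constructor
  have := lint_muK (l := l) h0 h1 (g := fun _ => 1) measurable_const
  rw [lintegral_one] at this
  rw [this]
  simp only [sum_const, card_range, nsmul_eq_mul, mul_one]
  rw [setLIntegral_const, Real.volume_Ioo, sub_zero]
  have e3 : (((l + 1 : ℕ) : ENNReal)) = ENNReal.ofReal (l + 1) := by
    rw [← ENNReal.ofReal_natCast]
    push_cast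
    rfl
  rw [e3, ← ENNReal.ofReal_mul (by positivity), ← ENNReal.ofReal_mul (by positivity)]
  rw [← ENNReal.ofReal_one]
  congr 1
  field_simp

theorem muK_ac : muK l s ≪ volume :=
  (withDensity_absolutelyContinuous _ _).trans Measure.absolutelyContinuous_restrict

theorem muK_compl : muK l s (KK l s)ᶜ = 0 := by
  have hm : MeasurableSet (KK l s) := isClosed_KK.measurableSet
  apply withDensity_absolutelyContinuous
  rw [Measure.restrict_apply hm.compl]
  simp

theorem muK_ne (x : ℝ) : ∀ᵐ y ∂(muK l s), y ≠ x := by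
  have h : ∀ᵐ y : ℝ, y ≠ x := by
    have := (Set.countable_singleton x).ae_notMem (volume : Measure ℝ)
    filter_upwards [this] with y hy h0
    exact hy h0
  exact muK_ac.ae_le h

theorem muK_OO (h0 : 0 < s) (h1 : s < 1) : ∀ᵐ x ∂(muK l s), x ∈ OO l s := by
  have : ∀ᵐ x ∂(volume.restrict (KK l s)), x ∈ OO l s := by
    rw [Measure.restrict_congr_set (KK_ae h0 h1)]
    exact ae_restrict_mem isOpen_OO.measurableSet
  exact (withDensity_absolutelyContinuous _ _).ae_le this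

theorem LE_mu (h0 : 0 < s) (h1 : s < 1) {ν : Measure ℝ} [IsProbabilityMeasure ν] (hν : ν (KK l s)ᶜ = 0) :
    LEn ν (muK l s) = ENNReal.ofReal (CC l s) := by
  have hνK : ∀ᵐ x ∂ν, x ∈ KK l s := by
    rw [ae_iff]; exact hν
  have hμK : ∀ᵐ x ∂(muK l s), x ∈ KK l s := by
    rw [ae_iff]; exact muK_compl
  unfold LEn Pool.Agent.Helper68.LC.LE
  have : ∫⁻ x, ∫⁻ y, Lam (‖x - y‖ ^ 2 / 4) ∂(muK l s) ∂ν = ∫⁻ _, ENNReal.ofReal (CC l s) ∂ν := by
    apply lintegral_congr_ae
    filter_upwards [hνK] with x hx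
    rw [← pot_K h0 h1 hx]
    apply lintegral_congr_ae
    filter_upwards [hμK, muK_ne x] with y hy hne
    exact lam_kap (KK_dist' hx hy) (Ne.symm hne)
  rw [this]
  simp

theorem LE_ge (h0 : 0 < s) (h1 : s < 1) {ν : Measure ℝ} [IsProbabilityMeasure ν] (hν : ν (KK l s)ᶜ = 0) :
    ENNReal.ofReal (CC l s) ≤ LEn ν ν := by
  have hp := prob_muK (l := l) h0 h1
  have hνK : ∀ᵐ x ∂ν, ‖x‖ ≤ 1 := by
    have : ∀ᵐ x ∂ν, x ∈ KK l s := by rw [ae_iff]; exact hν
    filter_upwards [this] with x hx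
    exact hx.1
  have hμK : ∀ᵐ x ∂(muK l s), ‖x‖ ≤ 1 := by
    have : ∀ᵐ x ∂(muK l s), x ∈ KK l s := by rw [ae_iff]; exact muK_compl
    filter_upwards [this] with x hx
    exact hx.1
  have h := Pool.Agent.Helper68.LC.two_LE_le ν (muK l s) hνK hμK
  have e1 : Pool.Agent.Helper68.LC.LE ν (muK l s) = ENNReal.ofReal (CC l s) := LE_mu h0 h1 hν
  have e2 : Pool.Agent.Helper68.LC.LE (muK l s) (muK l s) = ENNReal.ofReal (CC l s) := LE_mu h0 h1 muK_compl
  rw [e1, e2, two_mul] at h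
  exact (ENNReal.add_le_add_iff_right ENNReal.ofReal_ne_top).1 h

theorem ae_dist' {ν : Measure ℝ} [IsProbabilityMeasure ν] (hν : ν (KK l s)ᶜ = 0) :
    ∀ᵐ p ∂(ν.prod ν), abs (p.1 - p.2) ≤ 2 := by
  have hνK : ∀ᵐ x ∂ν, x ∈ KK l s := by rw [ae_iff]; exact hν
  have h1 : ∀ᵐ p ∂(ν.prod ν), p.1 ∈ KK l s :=
    Measure.quasiMeasurePreserving_fst.ae hνK
  have h2 : ∀ᵐ p ∂(ν.prod ν), p.2 ∈ KK l s :=
    Measure.quasiMeasurePreserving_snd.ae hνK
  filter_upwards [h1, h2] with p a b using KK_dist' a b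

theorem Phi_muK (h0 : 0 < s) (h1 : s < 1) :
    ∫⁻ x, ∫⁻ y, Phi x y ∂(muK l s) ∂(muK l s) = ENNReal.ofReal (CC l s / 2) := by
  have hp := prob_muK (l := l) h0 h1
  have h2 : 2 * ∫⁻ x, ∫⁻ y, Phi x y ∂(muK l s) ∂(muK l s) = 2 * ENNReal.ofReal (CC l s / 2) := by
    rw [two_ofReal_half, ← lintegral_const_mul _ measurable_Phi.lintegral_prod_right']
    have hμK : ∀ᵐ x ∂(muK l s), x ∈ KK l s := by rw [ae_iff]; exact muK_compl
    have : ∫⁻ x, (2 * ∫⁻ y, Phi x y ∂(muK l s)) ∂(muK l s) = ∫⁻ _, ENNReal.ofReal (CC l s) ∂(muK l s) := by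
      apply lintegral_congr_ae
      filter_upwards [hμK] with x hx
      rw [← pot_K h0 h1 hx, ← lintegral_const_mul _ (measurable_Phi_right x)]
      apply lintegral_congr_ae
      filter_upwards [muK_ne x] with y hne
      exact two_Phi (Ne.symm hne)
    rw [this]
    simp
  exact (ENNReal.mul_right_inj (by norm_num) (by norm_num)).1 h2

theorem Phi_ge (h0 : 0 < s) (h1 : s < 1) {ν : Measure ℝ} [IsProbabilityMeasure ν] (hν : ν (KK l s)ᶜ = 0) :
    ENNReal.ofReal (CC l s / 2) ≤ ∫⁻ x, ∫⁻ y, Phi x y ∂ν ∂ν := by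
  have h2 : 2 * ENNReal.ofReal (CC l s / 2) ≤ 2 * ∫⁻ x, ∫⁻ y, Phi x y ∂ν ∂ν := by
    rw [two_ofReal_half]
    refine (LE_ge h0 h1 hν).trans ?_
    unfold LEn Pool.Agent.Helper68.LC.LE
    rw [← lintegral_const_mul _ measurable_Phi.lintegral_prod_right']
    have hνK : ∀ᵐ x ∂ν, x ∈ KK l s := by rw [ae_iff]; exact hν
    apply lintegral_mono_ae
    filter_upwards [hνK] with x hx
    rw [← lintegral_const_mul _ (measurable_Phi_right x)]
    apply lintegral_mono_ae
    filter_upwards [hνK] with y hy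
    by_cases hxy : x = y
    · simp [Phi, hxy]
    · rw [two_Phi hxy, lam_kap (KK_dist' hx hy) hxy]
  exact (ENNReal.mul_le_mul_iff_right (by norm_num) (by norm_num)).1 h2

/-- the Robin constant -/
noncomputable def VV (l : ℕ) (s : ℝ) : ℝ := Real.log 2 - 1 / (l + 1) * Real.log s

theorem ereal_sub_eq (h0 : 0 < s) (h1 : s < 1) :
    ((ENNReal.ofReal (CC l s / 2) : ℝ≥0∞) : EReal) - ((Real.log 2 : ℝ) : EReal) =
    ((VV l s : ℝ) : EReal) := by
  rw [EReal.coe_ennreal_ofReal, max_eq_left (by have := CC_pos (l := l) h0 h1; positivity), ← EReal.coe_sub]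
  congr 1
  unfold CC VV
  ring

theorem energy_muK (h0 : 0 < s) (h1 : s < 1) : energy (muK l s) = ((VV l s : ℝ) : EReal) := by
  have hp := prob_muK (l := l) h0 h1
  rw [energy_eq (muK l s) (ae_dist' muK_compl), Phi_prod, Phi_muK h0 h1, ereal_sub_eq h0 h1]

theorem energy_ge (h0 : 0 < s) (h1 : s < 1) {ν : Measure ℝ} [IsProbabilityMeasure ν] (hν : ν (KK l s)ᶜ = 0) :
    ((VV l s : ℝ) : EReal) ≤ energy ν := by
  rw [energy_eq ν (ae_dist' hν), Phi_prod, ← ereal_sub_eq h0 h1]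
  apply EReal.sub_le_sub _ le_rfl
  exact_mod_cast Phi_ge h0 h1 hν

theorem isEquilibrium_muK (h0 : 0 < s) (h1 : s < 1) : IsEquilibrium (KK l s) (muK l s) := by
  refine ⟨prob_muK h0 h1, muK_compl, ?_, ?_⟩
  · rw [energy_muK h0 h1]; exact EReal.coe_lt_top _
  · intro ν hν h
    rw [energy_muK h0 h1]
    exact energy_ge h0 h1 h

theorem cap_KK (h0 : 0 < s) (h1 : s < 1) : cap (KK l s) = Real.exp (-VV l s) := by
  unfold cap
  have : (⨅ (ν : Measure ℝ) (_ : IsProbabilityMeasure ν ∧ ν (KK l s)ᶜ = 0), energy ν) =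
      ((VV l s : ℝ) : EReal) := by
    apply le_antisymm
    · refine (iInf₂_le (muK l s) ⟨prob_muK h0 h1, muK_compl⟩).trans ?_
      rw [energy_muK h0 h1]
    · refine le_iInf₂ fun ν h => ?_
      have := h.1
      exact energy_ge h0 h1 h.2
  rw [this, ← EReal.coe_neg, EReal.exp_coe, ENNReal.toReal_ofReal (Real.exp_pos _).le]

end Pool.Agent.Y764.W
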