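import Pool.Agent.Y764.W.W3
import Pool.Agent.H283R3.Wid5

set_option autoImplicit false

open Finset MeasureTheory Filter
open Set (Icc Ioo)
open scoped ENNReal Topology

namespace Pool.Agent.Y764.W

open Pool.Agent.H283R3.WidDefs Pool.Agent.H283R3.Wid

section general

variable {l : ℕ} {α β : Fin (l + 1) → ℝ}

theorem mono_al (hg : IsFiniteGap α β) : StrictMono α :=
  Fin.strictMono_iff_lt_succ.2 fun j => (hg.1 _).trans (hg.2 j)

theorem mono_be (hg : IsFiniteGap α β) : StrictMono β :=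
  Fin.strictMono_iff_lt_succ.2 fun j => (hg.2 j).trans (hg.1 _)

theorem be_lt_al (hg : IsFiniteGap α β) {i k : Fin (l + 1)} (h : i < k) : β i < α k := by
  have hi : (i : ℕ) < l := by have := k.2; have : (i : ℕ) < k := h; omega
  have e : i = (⟨i, hi⟩ : Fin l).castSucc := by ext; rfl
  have h2 : (⟨i, hi⟩ : Fin l).succ ≤ k := by
    rw [Fin.le_def]
    have : (i : ℕ) < k := h
    simp only [Fin.val_succ]
    omega
  rw [e]
  exact (hg.2 _).trans_le ((mono_al hg).monotone h2)

theorem ends_inj (hg : IsFiniteGap α β) {i k : Fin (l + 1)} : α i ≠ β k := by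
  rcases lt_or_ge k i with h | h
  · exact (be_lt_al hg h).ne'
  · exact (((mono_al hg).monotone h).trans_lt (hg.1 k)).ne

/-- the boundary value of `G` in an open band -/
theorem imG_gen {γ : Fin l → ℝ} (hg : IsFiniteGap α β) (hin : InGaps α β γ) {i : Fin (l + 1)} {x : ℝ}
    (hx : x ∈ Ioo (α i) (β i)) :
    imG α β γ x = (∏ j, |x - γ j|) / ∏ k, (Real.sqrt |x - α k| * Real.sqrt |x - β k|) := by
  unfold imG
  apply Tendsto.limUnder_eq
  set c : Fin (l + 1) → ℂ := fun k => if k < i then 1 else if k = i then Complex.I else -1 with hc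
  set d : Fin l → ℂ := fun j => if j.castSucc < i then 1 else -1 with hd
  have hfac : ∀ k : Fin (l + 1), Tendsto (fun ε : ℝ =>
      ((x : ℂ) + (ε : ℂ) * Complex.I - (α k : ℂ)) ^ (1 / 2 : ℂ) *
        ((x : ℂ) + (ε : ℂ) * Complex.I - (β k : ℂ)) ^ (1 / 2 : ℂ)) (𝓝[>] (0:ℝ))
      (𝓝 (c k * (((Real.sqrt |x - α k| * Real.sqrt |x - β k| : ℝ)) : ℂ))) := by
    intro k
    rcases lt_trichotomy k i with h | h | h
    · have hb : β k < x := (be_lt_al hg h).trans hx.1
      have ha : α k < x := (hg.1 k).trans hb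
      have := (tends_pos ha).mul (tends_pos hb)
      rw [abs_of_pos (by linarith : 0 < x - α k), abs_of_pos (by linarith : 0 < x - β k)]
      have hck : c k = 1 := by simp [hc, h]
      rw [hck, one_mul]
      push_cast
      exact this
    · subst h
      have := (tends_pos hx.1).mul (tends_neg hx.2)
      rw [abs_of_pos (by linarith [hx.1] : 0 < x - α k), abs_of_neg (by linarith [hx.2] : x - β k < 0), neg_sub]
      have hck : c k = Complex.I := by simp [hc]
      rw [hck]
      push_cast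
      refine this.congr' (Eventually.of_forall fun _ => rfl) |>.trans (le_of_eq ?_)
      congr 1
      ring
    · have ha : x < α k := hx.2.trans (be_lt_al hg h)
      have hb : x < β k := ha.trans (hg.1 k)
      have := (tends_neg ha).mul (tends_neg hb)
      rw [abs_of_neg (by linarith : x - α k < 0), abs_of_neg (by linarith : x - β k < 0), neg_sub, neg_sub]
      have hck : c k = -1 := by
        have h1 : ¬ k < i := not_lt.2 h.le
        have h2 : k ≠ i := h.ne'
        simp [hc, h1, h2]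
      rw [hck]
      push_cast
      refine this.congr' (Eventually.of_forall fun _ => rfl) |>.trans (le_of_eq ?_)
      congr 1
      linear_combination ((Real.sqrt (α k - x) : ℝ) : ℂ) * ((Real.sqrt (β k - x) : ℝ) : ℂ) * Complex.I_mul_I
  have hden := tendsto_finsetProd (univ : Finset (Fin (l + 1))) (fun k _ => hfac k)
  have hnum := (tendsto_finsetProd (univ : Finset (Fin l)) (fun j _ => tends_base x (γ j))).neg
  have hcprod : ∏ k, c k = Complex.I * ∏ j, d j := by
    rw [Fin.prod_univ_succAbove c i]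
    congr 1
    · simp [hc]
    · apply prod_congr rfl
      intro j _
      by_cases h : j.castSucc < i
      · rw [Fin.succAbove_of_castSucc_lt _ _ h]
        simp [hc, hd, h]
      · have h' : i ≤ j.castSucc := not_lt.1 h
        rw [Fin.succAbove_of_le_castSucc _ _ h']
        have h2 : i < j.succ := lt_of_le_of_lt h' j.castSucc_lt_succ
        have h3 : ¬ j.succ < i := not_lt.2 h2.le
        have h4 : j.succ ≠ i := h2.ne'
        simp [hc, hd, h, h3, h4]
  have hdne : ∏ j, d j ≠ 0 := by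
    rw [prod_ne_zero_iff]
    intro j _
    simp only [hd]
    split_ifs <;> simp
  have hγ : ∀ j, ((x - γ j : ℝ) : ℂ) = d j * ((|x - γ j| : ℝ) : ℂ) := by
    intro j
    by_cases h : j.castSucc < i
    · have h2 : j.succ ≤ i := by
        rw [Fin.le_def]
        have : (j.castSucc : ℕ) < i := h
        simp only [Fin.val_castSucc, Fin.val_succ] at this ⊢
        omega
      have h3 : γ j < x := ((hin j).2.trans ((mono_al hg).monotone h2)).trans_lt hx.1
      rw [abs_of_pos (by linarith : 0 < x - γ j)]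
      simp [hd, h]
    · have h' : i ≤ j.castSucc := not_lt.1 h
      have h3 : x < γ j := hx.2.trans_le (((mono_be hg).monotone h').trans (hin j).1)
      rw [abs_of_neg (by linarith : x - γ j < 0)]
      simp [hd, h]
  have hsp : ∀ k, 0 < Real.sqrt |x - α k| * Real.sqrt |x - β k| := by
    intro k
    have h1 : x ≠ α k := by
      rcases lt_trichotomy k i with h | h | h
      · exact ((hg.1 k).trans ((be_lt_al hg h).trans hx.1)).ne'
      · subst h; exact hx.1.ne'
      · exact (hx.2.trans (be_lt_al hg h)).ne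
    have h2 : x ≠ β k := by
      rcases lt_trichotomy k i with h | h | h
      · exact ((be_lt_al hg h).trans hx.1).ne'
      · subst h; exact hx.2.ne
      · exact ((hx.2.trans (be_lt_al hg h)).trans (hg.1 k)).ne
    have := abs_pos.2 (sub_ne_zero.2 h1)
    have := abs_pos.2 (sub_ne_zero.2 h2)
    positivity
  have hdval : ∏ k, c k * (((Real.sqrt |x - α k| * Real.sqrt |x - β k| : ℝ)) : ℂ) =
      (Complex.I * ∏ j, d j) * ((∏ k, (Real.sqrt |x - α k| * Real.sqrt |x - β k|) : ℝ) : ℂ) := by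
    rw [prod_mul_distrib, hcprod, Complex.ofReal_prod]
  have hnval : -∏ j, ((x - γ j : ℝ) : ℂ) = -((∏ j, d j) * ((∏ j, |x - γ j| : ℝ) : ℂ)) := by
    rw [prod_congr rfl (fun j _ => hγ j), prod_mul_distrib, Complex.ofReal_prod]
  have hP : ((∏ k, (Real.sqrt |x - α k| * Real.sqrt |x - β k|) : ℝ) : ℂ) ≠ 0 := by
    exact_mod_cast (prod_pos fun k _ => hsp k).ne'
  have hne : ∏ k, c k * (((Real.sqrt |x - α k| * Real.sqrt |x - β k| : ℝ)) : ℂ) ≠ 0 := by
    rw [hdval]
    exact mul_ne_zero (mul_ne_zero Complex.I_ne_zero hdne) hP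
  have hlim := hnum.div hden hne
  rw [hdval, hnval] at hlim
  have hval : -((∏ j, d j) * ((∏ j, |x - γ j| : ℝ) : ℂ)) /
      ((Complex.I * ∏ j, d j) * ((∏ k, (Real.sqrt |x - α k| * Real.sqrt |x - β k|) : ℝ) : ℂ)) =
      (((∏ j, |x - γ j|) / ∏ k, (Real.sqrt |x - α k| * Real.sqrt |x - β k|) : ℝ) : ℂ) * Complex.I := by
    rw [Complex.ofReal_div]
    have hI := Complex.I_ne_zero
    rw [div_mul_eq_mul_div, div_eq_div_iff (mul_ne_zero (mul_ne_zero hI hdne) hP) hP]
    linear_combination (-(∏ j, d j) * ((∏ j, |x - γ j| : ℝ) : ℂ) *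
      ((∏ k, (Real.sqrt |x - α k| * Real.sqrt |x - β k|) : ℝ) : ℂ)) * Complex.I_mul_I
  rw [hval] at hlim
  have h2 := (Complex.continuous_im.tendsto _).comp hlim
  rw [Complex.im_ofReal_mul, Complex.I_im, mul_one] at h2
  exact h2

end general

open Polynomial

variable {l : ℕ} {s : ℝ}

/-- the product of the distances to the endpoints -/
theorem prod_ends (h0 : 0 < s) (h1 : s < 1) (x : ℝ) :
    |Tm l x ^ 2 - s ^ 2| = 4 ^ l * ∏ k, (|x - al l s k| * |x - be l s k|) := by
  have hg := isFiniteGap (l := l) h0 h1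
  set p : ℝ[X] := Chebyshev.T ℝ ((l + 1 : ℕ) : ℤ) ^ 2 - C (s ^ 2) with hp
  have hn : (Chebyshev.T ℝ ((l + 1 : ℕ) : ℤ)).natDegree = l + 1 := by
    rw [Chebyshev.natDegree_T, Int.natAbs_natCast]
  have hl : (Chebyshev.T ℝ ((l + 1 : ℕ) : ℤ)).leadingCoeff = 2 ^ l := by
    rw [Chebyshev.leadingCoeff_T, Int.natAbs_natCast, Nat.add_sub_cancel]
  have hn2 : (Chebyshev.T ℝ ((l + 1 : ℕ) : ℤ) ^ 2).natDegree = 2 * (l + 1) := by rw [natDegree_pow, hn]
  have hl2 : (Chebyshev.T ℝ ((l + 1 : ℕ) : ℤ) ^ 2).leadingCoeff = 4 ^ l := by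
    rw [leadingCoeff_pow, hl, ← pow_mul, mul_comm, pow_mul]; norm_num
  have hpn : p.natDegree = 2 * (l + 1) := by rw [hp, natDegree_sub_C, hn2]
  have hd : (C (s ^ 2)).degree < (Chebyshev.T ℝ ((l + 1 : ℕ) : ℤ) ^ 2).degree := by
    refine lt_of_le_of_lt degree_C_le ?_
    apply natDegree_pos_iff_degree_pos.1
    rw [hn2]; omega
  have hpl : p.leadingCoeff = 4 ^ l := by
    rw [hp, leadingCoeff_sub_of_degree_lt hd, hl2]
  have hp0 : p ≠ 0 := by
    intro h
    rw [h, leadingCoeff_zero] at hpl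
    exact (pow_ne_zero _ (by norm_num)) hpl.symm
  set r : Fin (l + 1) ⊕ Fin (l + 1) → ℝ := fun t => Sum.elim (fun i => -al l s i) (fun i => -be l s i) t with hr
  have hev : ∀ y : ℝ, p.eval y = (Chebyshev.T ℝ ((l + 1 : ℕ) : ℤ)).eval y ^ 2 - s ^ 2 := by
    intro y; rw [hp, eval_sub, eval_pow, eval_C]
  have hc1 : ∀ i : Fin (l + 1), Real.cos ((l + 1) * An l s i) ^ 2 = s ^ 2 := by
    intro i
    have : ((l:ℝ) + 1) * An l s i = Real.arccos s + (i : ℕ) * Real.pi := by
      unfold An
      have : (l:ℝ) + 1 ≠ 0 := by positivity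
      field_simp
      ring
    rw [this, Real.cos_add_nat_mul_pi, Real.cos_arccos (by linarith) h1.le, mul_pow, ← pow_mul, mul_comm _ 2,
      pow_mul]
    norm_num
  have hc2 : ∀ i : Fin (l + 1), Real.cos ((l + 1) * Bn l s i) ^ 2 = s ^ 2 := by
    intro i
    have : ((l:ℝ) + 1) * Bn l s i = -Real.arccos s + ((i + 1 : ℕ) : ℕ) * Real.pi := by
      unfold Bn
      have : (l:ℝ) + 1 ≠ 0 := by positivity
      push_cast
      field_simp
      ring
    rw [this, Real.cos_add_nat_mul_pi, Real.cos_neg, Real.cos_arccos (by linarith) h1.le, mul_pow, ← pow_mul,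
      mul_comm _ 2, pow_mul]
    norm_num
  have hroot : ∀ t ∈ (univ : Finset (Fin (l + 1) ⊕ Fin (l + 1))), p.eval (r t) = 0 := by
    intro t _
    rw [hev]
    rcases t with i | i
    · have : (Chebyshev.T ℝ ((l + 1 : ℕ) : ℤ)).eval (r (Sum.inl i)) = Real.cos ((l + 1) * An l s i) :=
        Tm_cos (l := l) (An l s i)
      rw [this, hc1, sub_self]
    · have : (Chebyshev.T ℝ ((l + 1 : ℕ) : ℤ)).eval (r (Sum.inr i)) = Real.cos ((l + 1) * Bn l s i) :=
        Tm_cos (l := l) (Bn l s i)
      rw [this, hc2, sub_self]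
  have hinj : ∀ t ∈ (univ : Finset (Fin (l + 1) ⊕ Fin (l + 1))), ∀ t' ∈ (univ : Finset (Fin (l + 1) ⊕ Fin (l + 1))),
      r t = r t' → t = t' := by
    intro t _ t' _ h
    rcases t with i | i <;> rcases t' with k | k
    · simp only [hr, Sum.elim_inl, neg_inj] at h
      rw [(mono_al hg).injective h]
    · simp only [hr, Sum.elim_inl, Sum.elim_inr, neg_inj] at h
      exact absurd h (ends_inj hg)
    · simp only [hr, Sum.elim_inl, Sum.elim_inr, neg_inj] at h
      exact absurd h.symm (ends_inj hg)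
    · simp only [hr, Sum.elim_inr, neg_inj] at h
      rw [(mono_be hg).injective h]
  have h := eval_of_roots p univ r hinj (by rw [hpn]; simp; ring) hp0 hroot (-x)
  rw [hev, hpl, Fintype.prod_sum_type, ← prod_mul_distrib] at h
  have h' : Tm l x ^ 2 - s ^ 2 = 4 ^ l * ∏ k, ((-x - -al l s k) * (-x - -be l s k)) := h
  rw [h', abs_mul, abs_of_pos (by positivity : (0:ℝ) < 4 ^ l), Finset.abs_prod]
  congr 1
  apply prod_congr rfl
  intro k _
  rw [abs_mul]
  congr 1
  · rw [← abs_neg]; congr 1; ring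
  · rw [← abs_neg]; congr 1; ring

end Pool.Agent.Y764.W
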