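import Pool.Agent.Y764.W.W4

set_option autoImplicit false

open Finset MeasureTheory Filter Polynomial
open Set (Icc Ioo)
open scoped ENNReal Topology

namespace Pool.Agent.Y764.W

open Pool.Agent.H283R3.WidDefs Pool.Agent.H283R3.Wid

/-- coefficients of the truncated Poisson kernel -/
noncomputable def cf (r : ℝ) (m : ℕ) : ℝ := if m = 0 then 1 else 2 * (-r) ^ m
noncomputable def F (r : ℝ) (n M : ℕ) (θ : ℝ) : ℝ := ∑ m ∈ range (M + 1), cf r m * Real.cos ((2 * n * m : ℕ) * θ)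
noncomputable def Ft (r : ℝ) (n M : ℕ) (θ : ℝ) : ℝ := ∑ m ∈ range (M + 1), cf r m * Real.sin ((2 * n * m : ℕ) * θ)

/-- the numerator -/
noncomputable def Q (r : ℝ) (n M l : ℕ) : ℝ[X] :=
  ∑ m ∈ range (M + 1), C (cf r m) * Chebyshev.U ℝ ((l - 2 * n * m : ℕ) : ℤ)

noncomputable def qf (r : ℝ) (n M l : ℕ) (x : ℝ) : ℝ := (Q r n M l).eval (-x)

variable {r s : ℝ} {n M l : ℕ}

theorem qf_cos (hl : 2 * n * M ≤ l) (ψ : ℝ) : qf r n M l (-Real.cos ψ) * Real.sin ψ =
    Real.sin ((l + 1) * ψ) * F r n M ψ - Real.cos ((l + 1) * ψ) * Ft r n M ψ := by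
  unfold qf Q F Ft
  rw [neg_neg, eval_finset_sum, sum_mul, mul_sum, mul_sum, ← sum_sub_distrib]
  apply sum_congr rfl
  intro m hm
  have hm' : m ≤ M := Nat.lt_succ_iff.1 (mem_range.1 hm)
  have h1 : 2 * n * m ≤ l := (Nat.mul_le_mul_left _ hm').trans hl
  rw [eval_mul, eval_C, mul_assoc, Chebyshev.U_real_cos]
  have e : ((((l - 2 * n * m : ℕ) : ℤ) : ℝ) + 1) * ψ = ((l:ℝ) + 1) * ψ - ((2 * n * m : ℕ) : ℝ) * ψ := by
    rw [Int.cast_natCast, Nat.cast_sub h1]
    ring
  rw [e, Real.sin_sub]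
  ring

theorem Q_deg (hn : 1 ≤ n) (hl : 2 * n * M ≤ l) (hl1 : 1 ≤ l) :
    (Q r n M l).natDegree = l ∧ (Q r n M l).leadingCoeff = 2 ^ l := by
  have e : Q r n M l = Chebyshev.U ℝ (l : ℤ) +
      ∑ m ∈ range M, C (cf r (m + 1)) * Chebyshev.U ℝ ((l - 2 * n * (m + 1) : ℕ) : ℤ) := by
    unfold Q
    rw [sum_range_succ', add_comm]
    congr 1
    simp [cf]
  have hR : (∑ m ∈ range M, C (cf r (m + 1)) * Chebyshev.U ℝ ((l - 2 * n * (m + 1) : ℕ) : ℤ)).natDegree ≤ l - 1 := by
    apply natDegree_sum_le_of_forall_le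
    intro m hm
    refine (natDegree_C_mul_le _ _).trans ?_
    rw [Chebyshev.natDegree_U_natCast]
    have : 2 ≤ 2 * n * (m + 1) := by nlinarith
    omega
  have hU : (Chebyshev.U ℝ (l : ℤ)).natDegree = l := Chebyshev.natDegree_U_natCast _ _
  have hlt : (∑ m ∈ range M, C (cf r (m + 1)) * Chebyshev.U ℝ ((l - 2 * n * (m + 1) : ℕ) : ℤ)).natDegree <
      (Chebyshev.U ℝ (l : ℤ)).natDegree := by rw [hU]; omega
  constructor
  · rw [e, natDegree_add_eq_left_of_natDegree_lt hlt, hU]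
  · rw [e, leadingCoeff_add_of_degree_lt', Chebyshev.leadingCoeff_U_natCast]
    exact degree_lt_degree hlt

theorem continuous_qf : Continuous (qf r n M l) := by
  unfold qf
  exact (Polynomial.continuous _).comp continuous_neg

/-- the positivity condition -/
def Pos (r s : ℝ) (n M : ℕ) : Prop := ∀ θ : ℝ, s * |Ft r n M θ| < Real.sqrt (1 - s ^ 2) * F r n M θ

theorem key_pos (h0 : 0 < s) (h1 : s < 1) (hP : Pos r s n M) {c d : ℝ} (hcd : d ^ 2 + c ^ 2 = 1) (hd : 0 < d) (hc : |c| ≤ s)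
    (θ : ℝ) : |c * Ft r n M θ| < d * F r n M θ := by
  have hs : 0 < Real.sqrt (1 - s ^ 2) := Real.sqrt_pos.2 (by nlinarith)
  have hds : Real.sqrt (1 - s ^ 2) ≤ d := by
    apply Real.sqrt_le_iff.2 ⟨hd.le, ?_⟩
    have : c ^ 2 ≤ s ^ 2 := sq_le_sq' (by linarith [neg_abs_le c]) (by linarith [le_abs_self c])
    nlinarith
  have hF : 0 < F r n M θ := by
    have := hP θ
    by_contra hcon
    push Not at hcon
    have h2 : 0 ≤ s * |Ft r n M θ| := by positivity
    nlinarith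
  calc |c * Ft r n M θ| = |c| * |Ft r n M θ| := abs_mul _ _
    _ ≤ s * |Ft r n M θ| := by gcongr
    _ < Real.sqrt (1 - s ^ 2) * F r n M θ := hP θ
    _ ≤ d * F r n M θ := by gcongr

/-- sign of `qf` and of `Um` in a band -/
theorem sign_band (h0 : 0 < s) (h1 : s < 1) (hP : Pos r s n M) (hl : 2 * n * M ≤ l) {i : Fin (l + 1)} {x : ℝ}
    (hx : x ∈ Icc (al l s i) (be l s i)) :
    0 < (-1) ^ (i : ℕ) * qf r n M l x ∧ 0 < (-1) ^ (i : ℕ) * Um l x := by
  obtain ⟨p1, p2, p3, p4, p5, p6, -⟩ := angle_of_band h0 h1 hx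
  generalize Real.arccos (-x) = ψ at p2 p3 p4 p5 p6
  subst p4
  have hsin := Real.sin_pos_of_pos_of_lt_pi p2 p3
  obtain ⟨c1, -, c3⟩ := cos_band h0 h1 p5 p6
  have hk := key_pos h0 h1 hP (c := Real.cos ((l + 1) * ψ)) (d := (-1) ^ (i : ℕ) * Real.sin ((l + 1) * ψ))
    (by rw [mul_pow, ← pow_mul, mul_comm _ 2, pow_mul]; norm_num) c3 c1 ψ
  have habs : -(|Real.cos ((l + 1) * ψ) * Ft r n M ψ|) ≤ -((-1) ^ (i : ℕ) * (Real.cos ((l + 1) * ψ) * Ft r n M ψ)) := by
    apply neg_le_neg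
    refine (le_abs_self _).trans ?_
    rw [abs_mul, abs_pow, abs_neg, abs_one, one_pow, one_mul]
  constructor
  · have e : ((-1) ^ (i : ℕ) * qf r n M l (-Real.cos ψ)) * Real.sin ψ =
        (-1) ^ (i : ℕ) * Real.sin ((l + 1) * ψ) * F r n M ψ -
          (-1) ^ (i : ℕ) * (Real.cos ((l + 1) * ψ) * Ft r n M ψ) := by
      rw [mul_assoc, qf_cos hl]; ring
    have : 0 < ((-1) ^ (i : ℕ) * qf r n M l (-Real.cos ψ)) * Real.sin ψ := by rw [e]; linarith
    exact pos_of_mul_pos_left this hsin.le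
  · have e : ((-1) ^ (i : ℕ) * Um l (-Real.cos ψ)) * Real.sin ψ = (-1) ^ (i : ℕ) * Real.sin ((l + 1) * ψ) := by
      rw [mul_assoc, Um_cos]
    have : 0 < ((-1) ^ (i : ℕ) * Um l (-Real.cos ψ)) * Real.sin ψ := by rw [e]; exact c3
    exact pos_of_mul_pos_left this hsin.le

/-- a zero of `qf` in each gap -/
theorem exists_zero (h0 : 0 < s) (h1 : s < 1) (hP : Pos r s n M) (hl : 2 * n * M ≤ l) (j : Fin l) :
    ∃ g ∈ Ioo (be l s j.castSucc) (al l s j.succ), qf r n M l g = 0 := by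
  have hg := isFiniteGap (l := l) h0 h1
  have s1 := (sign_band h0 h1 hP hl (i := j.castSucc) ⟨(hg.1 _).le, le_refl (be l s j.castSucc)⟩).1
  have s2 := (sign_band h0 h1 hP hl (i := j.succ) ⟨le_refl (al l s j.succ), (hg.1 _).le⟩).1
  have hlt := hg.2 j
  simp only [Fin.val_castSucc, Fin.val_succ] at s1 s2
  rw [pow_succ] at s2
  rcases Nat.even_or_odd (j : ℕ) with hj | hj
  · rw [hj.neg_one_pow] at s1 s2
    have := intermediate_value_Ioo' hlt.le (continuous_qf (r := r) (n := n) (M := M) (l := l)).continuousOn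
    have h0' : (0:ℝ) ∈ Ioo (qf r n M l (al l s j.succ)) (qf r n M l (be l s j.castSucc)) :=
      ⟨by linarith, by linarith⟩
    obtain ⟨g, hg1, hg2⟩ := this h0'
    exact ⟨g, hg1, hg2⟩
  · rw [hj.neg_one_pow] at s1 s2
    have := intermediate_value_Ioo hlt.le (continuous_qf (r := r) (n := n) (M := M) (l := l)).continuousOn
    have h0' : (0:ℝ) ∈ Ioo (qf r n M l (be l s j.castSucc)) (qf r n M l (al l s j.succ)) :=
      ⟨by linarith, by linarith⟩
    obtain ⟨g, hg1, hg2⟩ := this h0'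
    exact ⟨g, hg1, hg2⟩

open Classical in
/-- the parameters `γ_j` of the reflectionless measure -/
noncomputable def ga (r s : ℝ) (n M l : ℕ) (j : Fin l) : ℝ :=
  if h : ∃ g ∈ Ioo (be l s j.castSucc) (al l s j.succ), qf r n M l g = 0 then h.choose else 0

theorem ga_spec (h0 : 0 < s) (h1 : s < 1) (hP : Pos r s n M) (hl : 2 * n * M ≤ l) (j : Fin l) :
    ga r s n M l j ∈ Ioo (be l s j.castSucc) (al l s j.succ) ∧ qf r n M l (ga r s n M l j) = 0 := by
  have h := exists_zero h0 h1 hP hl j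
  unfold ga
  rw [dif_pos h]
  exact h.choose_spec

theorem inGaps (h0 : 0 < s) (h1 : s < 1) (hP : Pos r s n M) (hl : 2 * n * M ≤ l) :
    InGaps (al l s) (be l s) (ga r s n M l) :=
  fun j => Set.Ioo_subset_Icc_self (ga_spec h0 h1 hP hl j).1

theorem ga_inj (h0 : 0 < s) (h1 : s < 1) (hP : Pos r s n M) (hl : 2 * n * M ≤ l) {j j' : Fin l}
    (h : ga r s n M l j = ga r s n M l j') : j = j' := by
  have hg := isFiniteGap (l := l) h0 h1
  have key : ∀ j j' : Fin l, j < j' → ga r s n M l j < ga r s n M l j' := by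
    intro j j' hlt
    have h2 := (ga_spec h0 h1 hP hl j).1.2
    have h3 := (ga_spec h0 h1 hP hl j').1.1
    have h4 : j.succ ≤ j'.castSucc := by
      rw [Fin.le_def]
      have : (j : ℕ) < j' := hlt
      simp only [Fin.val_succ, Fin.val_castSucc]
      omega
    have h5 := (mono_al hg).monotone h4
    have h6 := hg.1 j'.castSucc
    linarith
  rcases lt_trichotomy j j' with hlt | heq | hgt
  · exact absurd h (key _ _ hlt).ne
  · exact heq
  · exact absurd h (key _ _ hgt).ne'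

theorem prod_ga (h0 : 0 < s) (h1 : s < 1) (hP : Pos r s n M) (hn : 1 ≤ n) (hl : 2 * n * M ≤ l) (hl1 : 1 ≤ l) (x : ℝ) :
    |qf r n M l x| = 2 ^ l * ∏ j, |x - ga r s n M l j| := by
  obtain ⟨hd, hlc⟩ := Q_deg (r := r) hn hl hl1
  have hQ0 : Q r n M l ≠ 0 := by
    intro h
    rw [h, leadingCoeff_zero] at hlc
    exact (pow_ne_zero _ two_ne_zero) hlc.symm
  have h := eval_of_roots (Q r n M l) (univ : Finset (Fin l)) (fun j => -ga r s n M l j)
    (fun i _ j _ h => ga_inj h0 h1 hP hl (neg_injective h)) (by rw [hd]; simp) hQ0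
    (fun j _ => (ga_spec h0 h1 hP hl j).2) (-x)
  rw [hlc] at h
  have h' : qf r n M l x = 2 ^ l * ∏ j, (-x - -ga r s n M l j) := h
  rw [h', abs_mul, abs_of_pos (by positivity : (0:ℝ) < 2 ^ l), Finset.abs_prod]
  congr 1
  apply prod_congr rfl
  intro k _
  rw [← abs_neg]
  congr 1
  ring

/-- the density with respect to the equilibrium measure -/
noncomputable def hf (r : ℝ) (n M l : ℕ) (x : ℝ) : ℝ := |qf r n M l x| / |Um l x|

theorem measurable_hf : Measurable (hf r n M l) := by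
  unfold hf
  have h1 : Measurable (fun x => |qf r n M l x|) := continuous_qf.measurable.abs
  have h2 : Measurable (fun x => |Um l x|) := continuous_Um.measurable.abs
  exact h1.div h2

theorem hf_nonneg (x : ℝ) : 0 ≤ hf r n M l x := by unfold hf; positivity

theorem imG_eq (h0 : 0 < s) (h1 : s < 1) (hP : Pos r s n M) (hn : 1 ≤ n) (hl : 2 * n * M ≤ l) (hl1 : 1 ≤ l) {x : ℝ}
    (hx : x ∈ OO l s) :
    1 / Real.pi * imG (al l s) (be l s) (ga r s n M l) x = w l s x * hf r n M l x := by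
  obtain ⟨i, hi⟩ := open_band h0 h1 hx
  have hg := isFiniteGap (l := l) h0 h1
  rw [imG_gen hg (inGaps h0 h1 hP hl) hi]
  have hU : 0 < |Um l x| := by
    have := (sign_band h0 h1 hP hl (Set.Ioo_subset_Icc_self hi)).2
    apply abs_pos.2
    intro h
    rw [h, mul_zero] at this
    exact lt_irrefl _ this
  have hpg := prod_ga h0 h1 hP hn hl hl1 x
  have hpe := prod_ends (l := l) h0 h1 x
  have hpos : 0 < s ^ 2 - Tm l x ^ 2 := by
    have := hx.2
    have := sq_lt_sq' (by linarith [neg_abs_le (Tm l x)]) (lt_of_le_of_lt (le_abs_self _) this)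
    linarith
  rw [abs_of_neg (by linarith : Tm l x ^ 2 - s ^ 2 < 0), neg_sub] at hpe
  have hsq : Real.sqrt (s ^ 2 - Tm l x ^ 2) = 2 ^ l * ∏ k, (Real.sqrt |x - al l s k| * Real.sqrt |x - be l s k|) := by
    rw [hpe, Real.sqrt_mul (by positivity), show (4:ℝ) ^ l = (2 ^ l) ^ 2 by rw [← pow_mul, mul_comm, pow_mul]; norm_num,
      Real.sqrt_sq (by positivity)]
    congr 1
    rw [Real.sqrt_prod]
    · apply prod_congr rfl
      intro k _
      rw [Real.sqrt_mul (abs_nonneg _)]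
    · intro k _
      positivity
  unfold w hf
  have hs0 : 0 < Real.sqrt (s ^ 2 - Tm l x ^ 2) := Real.sqrt_pos.2 hpos
  have hpi := Real.pi_pos
  rw [hpg, hsq]
  rw [hsq] at hs0
  have hne : ∏ k, (Real.sqrt |x - al l s k| * Real.sqrt |x - be l s k|) ≠ 0 := right_ne_zero_of_mul hs0.ne'
  field_simp

theorem refl_eq (h0 : 0 < s) (h1 : s < 1) (hP : Pos r s n M) (hn : 1 ≤ n) (hl : 2 * n * M ≤ l) (hl1 : 1 ≤ l) :
    reflM (al l s) (be l s) (ga r s n M l) = (muK l s).withDensity (fun x => ENNReal.ofReal (hf r n M l x)) := by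
  have hm : Measurable (fun x => ENNReal.ofReal (w l s x)) := ENNReal.measurable_ofReal.comp measurable_w
  have hm2 : Measurable (fun x => ENNReal.ofReal (hf r n M l x)) := ENNReal.measurable_ofReal.comp measurable_hf
  unfold reflM muK
  rw [bands_eq h0 h1, ← withDensity_mul _ hm hm2]
  apply withDensity_congr_ae
  have : ∀ᵐ x ∂(volume.restrict (KK l s)), x ∈ OO l s := by
    rw [Measure.restrict_congr_set (KK_ae h0 h1)]
    exact ae_restrict_mem isOpen_OO.measurableSet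
  filter_upwards [this] with x hx
  show ENNReal.ofReal (1 / Real.pi * imG (al l s) (be l s) (ga r s n M l) x) =
    ENNReal.ofReal (w l s x) * ENNReal.ofReal (hf r n M l x)
  rw [imG_eq h0 h1 hP hn hl hl1 hx, ENNReal.ofReal_mul (w_nonneg x)]

/-- the density at the points of a fibre -/
theorem hf_Z (h0 : 0 < s) (h1 : s < 1) (hP : Pos r s n M) (hl : 2 * n * M ≤ l) (k : ℕ) (a : ℝ) :
    hf r n M l (Z l s k a) = F r n M (th l s k a) - s * Real.cos a / Real.sin (ph s a) * Ft r n M (th l s k a) ∧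
    0 < hf r n M l (Z l s k a) := by
  have hsp := sin_ph_pos h0 h1 a
  have hU := Um_Z (l := l) (s := s) k a
  have hq := qf_cos (r := r) hl (th l s k a)
  rw [sin_th, cos_th h0 h1] at hq
  have hq' : qf r n M l (Z l s k a) * Real.sin (th l s k a) =
    Real.sin (ph s a) * F r n M (th l s k a) - s * Real.cos a * Ft r n M (th l s k a) := hq
  have hk := key_pos h0 h1 hP (c := s * Real.cos a) (d := Real.sin (ph s a))
    (by rw [← cos_ph h0 h1]; exact Real.sin_sq_add_cos_sq _) hsp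
    (by rw [abs_mul, abs_of_pos h0]; nlinarith [Real.abs_cos_le_one a]) (th l s k a)
  have hpos : 0 < Real.sin (ph s a) * F r n M (th l s k a) - s * Real.cos a * Ft r n M (th l s k a) := by
    linarith [le_abs_self (s * Real.cos a * Ft r n M (th l s k a))]
  have hsth : 0 < |Real.sin (th l s k a)| := by
    apply abs_pos.2
    intro h
    rw [h, mul_zero] at hU
    exact hsp.ne hU
  have e : hf r n M l (Z l s k a) = (Real.sin (ph s a) * F r n M (th l s k a) - s * Real.cos a * Ft r n M (th l s k a)) /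
      Real.sin (ph s a) := by
    unfold hf
    rw [← mul_div_mul_right _ _ hsth.ne', ← abs_mul, ← abs_mul, hq', hU, abs_of_pos hpos, abs_of_pos hsp]
  constructor
  · rw [e]; field_simp
  · rw [e]; positivity

/-- integrals against the reflectionless measure -/
theorem lint_refl (h0 : 0 < s) (h1 : s < 1) (hP : Pos r s n M) (hn : 1 ≤ n) (hl : 2 * n * M ≤ l) (hl1 : 1 ≤ l)
    {G : ℝ → ℝ} (hG : Measurable G) (hG0 : ∀ x, 0 ≤ G x) {c : ℝ} (hc : 0 ≤ c)
    (hs : ∀ a, ∑ k ∈ range (l + 1), hf r n M l (Z l s k a) * G (Z l s k a) = (l + 1) * c) :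
    ∫⁻ x, ENNReal.ofReal (G x) ∂(reflM (al l s) (be l s) (ga r s n M l)) = ENNReal.ofReal c := by
  have hpi := Real.pi_pos
  have hm2 : Measurable (fun x => ENNReal.ofReal (hf r n M l x)) :=
    ENNReal.measurable_ofReal.comp measurable_hf
  have hm3 : Measurable (fun x => ENNReal.ofReal (G x)) := ENNReal.measurable_ofReal.comp hG
  rw [refl_eq h0 h1 hP hn hl hl1, lintegral_withDensity_eq_lintegral_mul _ hm2 hm3, lint_muK h0 h1 (hm2.mul hm3)]
  have e : ∫⁻ a in Ioo 0 Real.pi,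
      ∑ k ∈ range (l + 1), ((fun x => ENNReal.ofReal (hf r n M l x)) * fun x => ENNReal.ofReal (G x)) (Z l s k a) =
      ∫⁻ a in Ioo 0 Real.pi, ENNReal.ofReal ((l + 1) * c) := by
    apply setLIntegral_congr_fun measurableSet_Ioo
    intro a _
    show ∑ k ∈ range (l + 1), ENNReal.ofReal (hf r n M l (Z l s k a)) * ENNReal.ofReal (G (Z l s k a)) =
      ENNReal.ofReal ((l + 1) * c)
    rw [← hs a, ENNReal.ofReal_sum_of_nonneg (fun k _ => mul_nonneg (hf_nonneg _) (hG0 _))]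
    apply sum_congr rfl
    intro k _
    rw [ENNReal.ofReal_mul (hf_nonneg _)]
  rw [e, setLIntegral_const, Real.volume_Ioo, sub_zero, ← ENNReal.ofReal_mul (by positivity),
    ← ENNReal.ofReal_mul (by positivity)]
  congr 1
  field_simp

end Pool.Agent.Y764.W
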