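import Pool.Agent.Y764.W.W5

set_option autoImplicit false

open Finset MeasureTheory Filter Polynomial
open Set (Icc Ioo)
open scoped ENNReal Topology

namespace Pool.Agent.Y764.W

open Pool.Agent.H283R3.WidDefs Pool.Agent.H283R3.Wid

variable {r s : ℝ} {n M l : ℕ}

/-! ### sums over the fibres -/

theorem sum_c (j : ℕ) (hj : j < l + 1) (a : ℝ) :
    ∑ k ∈ range (l + 1), Real.cos ((j : ℝ) * th l s k a) = if j = 0 then (l:ℝ) + 1 else 0 := by
  by_cases h : j = 0
  · subst h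
    simp
  · rw [if_neg h]
    exact sum_cos (Nat.pos_of_ne_zero h) hj (ph s a)

theorem sum_s (j : ℕ) (hj : j < l + 1) (a : ℝ) :
    ∑ k ∈ range (l + 1), Real.sin ((j : ℝ) * th l s k a) = 0 := by
  by_cases h : j = 0
  · subst h
    simp
  · exact sum_sin (Nat.pos_of_ne_zero h) hj (ph s a)

theorem idx {m : ℕ} (hn : 1 ≤ n) : 2 * n * m = 0 ↔ m = 0 := by
  constructor
  · intro h
    rcases Nat.mul_eq_zero.1 h with h | h
    · omega
    · exact h
  · rintro rfl; simp

theorem sum_F (hn : 1 ≤ n) (hl : 2 * n * M < l + 1) (a : ℝ) :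
    ∑ k ∈ range (l + 1), F r n M (th l s k a) = l + 1 ∧ ∑ k ∈ range (l + 1), Ft r n M (th l s k a) = 0 := by
  unfold F Ft
  constructor
  · rw [sum_comm, sum_range_succ']
    have h0 : ∀ m ∈ range M, ∑ k ∈ range (l + 1), cf r (m + 1) * Real.cos ((2 * n * (m + 1) : ℕ) * th l s k a) = 0 := by
      intro m hm
      have hm' : m + 1 ≤ M := mem_range.1 hm
      rw [← mul_sum, sum_c _ (lt_of_le_of_lt (Nat.mul_le_mul_left _ hm') hl),
        if_neg (by rw [idx hn]; omega), mul_zero]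
    rw [sum_eq_zero h0, zero_add]
    simp [cf]
  · rw [sum_comm]
    apply sum_eq_zero
    intro m hm
    have hm' : m ≤ M := Nat.lt_succ_iff.1 (mem_range.1 hm)
    rw [← mul_sum, sum_s _ (lt_of_le_of_lt (Nat.mul_le_mul_left _ hm') hl), mul_zero]

theorem sum_Fc (hn : 1 ≤ n) (hM : 1 ≤ M) (hl : 2 * n * (M + 1) < l + 1) (a : ℝ) :
    ∑ k ∈ range (l + 1), F r n M (th l s k a) * Real.cos ((2 * n : ℕ) * th l s k a) = -(l + 1) * r ∧
    ∑ k ∈ range (l + 1), Ft r n M (th l s k a) * Real.cos ((2 * n : ℕ) * th l s k a) = 0 := by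
  have hl1 : 2 * n < l + 1 := by nlinarith
  have hlm : ∀ m, m ≤ M + 1 → 2 * n * m < l + 1 := fun m hm => lt_of_le_of_lt (Nat.mul_le_mul_left _ hm) hl
  unfold F Ft
  constructor
  · simp only [sum_mul]
    rw [sum_comm, sum_range_succ']
    have h0 : ∑ k ∈ range (l + 1), cf r 0 * Real.cos ((2 * n * 0 : ℕ) * th l s k a) *
        Real.cos ((2 * n : ℕ) * th l s k a) = 0 := by
      have := sum_c (s := s) (2 * n) hl1 a
      rw [if_neg (by omega)] at this
      rw [← this]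
      apply sum_congr rfl
      intro k _
      simp [cf]
    have h1 : ∀ m ∈ range M, ∑ k ∈ range (l + 1), cf r (m + 1) * Real.cos ((2 * n * (m + 1) : ℕ) * th l s k a) *
        Real.cos ((2 * n : ℕ) * th l s k a) = if m = 0 then -(l + 1) * r else 0 := by
      intro m hm
      have hm' : m < M := mem_range.1 hm
      have e : ∀ k ∈ range (l + 1), cf r (m + 1) * Real.cos ((2 * n * (m + 1) : ℕ) * th l s k a) *
          Real.cos ((2 * n : ℕ) * th l s k a) = cf r (m + 1) / 2 * Real.cos ((2 * n * (m + 2) : ℕ) * th l s k a) +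
            cf r (m + 1) / 2 * Real.cos ((2 * n * m : ℕ) * th l s k a) := by
        intro k _
        have e1 : ((2 * n * (m + 2) : ℕ) : ℝ) * th l s k a =
          ((2 * n * (m + 1) : ℕ) : ℝ) * th l s k a + ((2 * n : ℕ) : ℝ) * th l s k a := by push_cast; ring
        have e2 : ((2 * n * m : ℕ) : ℝ) * th l s k a =
          ((2 * n * (m + 1) : ℕ) : ℝ) * th l s k a - ((2 * n : ℕ) : ℝ) * th l s k a := by push_cast; ring
        rw [e1, e2, Real.cos_add, Real.cos_sub]
        ring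
      rw [sum_congr rfl e, sum_add_distrib, ← mul_sum, ← mul_sum, sum_c _ (hlm _ (by omega)),
        sum_c _ (hlm _ (by omega)), if_neg (by rw [idx hn]; omega), mul_zero, zero_add]
      by_cases hm0 : m = 0
      · subst hm0
        simp [cf]
        ring
      · rw [if_neg (by rw [idx hn]; omega), if_neg hm0, mul_zero]
    rw [sum_congr rfl h1, h0, add_zero, sum_ite_eq' (range M) 0, if_pos (mem_range.2 (by omega))]
  · simp only [sum_mul]
    rw [sum_comm, sum_range_succ']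
    have h0 : ∑ k ∈ range (l + 1), cf r 0 * Real.sin ((2 * n * 0 : ℕ) * th l s k a) *
        Real.cos ((2 * n : ℕ) * th l s k a) = 0 := by
      apply sum_eq_zero
      intro k _
      simp
    have h1 : ∀ m ∈ range M, ∑ k ∈ range (l + 1), cf r (m + 1) * Real.sin ((2 * n * (m + 1) : ℕ) * th l s k a) *
        Real.cos ((2 * n : ℕ) * th l s k a) = 0 := by
      intro m hm
      have hm' : m < M := mem_range.1 hm
      have e : ∀ k ∈ range (l + 1), cf r (m + 1) * Real.sin ((2 * n * (m + 1) : ℕ) * th l s k a) *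
          Real.cos ((2 * n : ℕ) * th l s k a) = cf r (m + 1) / 2 * Real.sin ((2 * n * (m + 2) : ℕ) * th l s k a) +
            cf r (m + 1) / 2 * Real.sin ((2 * n * m : ℕ) * th l s k a) := by
        intro k _
        have e1 : ((2 * n * (m + 2) : ℕ) : ℝ) * th l s k a =
          ((2 * n * (m + 1) : ℕ) : ℝ) * th l s k a + ((2 * n : ℕ) : ℝ) * th l s k a := by push_cast; ring
        have e2 : ((2 * n * m : ℕ) : ℝ) * th l s k a =
          ((2 * n * (m + 1) : ℕ) : ℝ) * th l s k a - ((2 * n : ℕ) : ℝ) * th l s k a := by push_cast; ring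
        rw [e1, e2, Real.sin_add, Real.sin_sub]
        ring
      rw [sum_congr rfl e, sum_add_distrib, ← mul_sum, ← mul_sum, sum_s _ (hlm _ (by omega)),
        sum_s _ (hlm _ (by omega)), mul_zero, zero_add]
    rw [sum_eq_zero h1, h0, zero_add]

theorem sum_h1 (h0 : 0 < s) (h1 : s < 1) (hP : Pos r s n M) (hn : 1 ≤ n) (hl : 2 * n * M ≤ l) (a : ℝ) :
    ∑ k ∈ range (l + 1), hf r n M l (Z l s k a) * (1:ℝ) = (l + 1) * 1 := by
  obtain ⟨f1, f2⟩ := sum_F (r := r) (s := s) hn (show 2 * n * M < l + 1 by omega) a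
  have e : ∀ k ∈ range (l + 1), hf r n M l (Z l s k a) * (1:ℝ) =
      F r n M (th l s k a) - s * Real.cos a / Real.sin (ph s a) * Ft r n M (th l s k a) := by
    intro k _
    rw [mul_one, (hf_Z h0 h1 hP hl k a).1]
  rw [sum_congr rfl e, sum_sub_distrib, ← mul_sum, f1, f2]
  ring

/-- the square of the Chebyshev polynomial -/
noncomputable def Tsq (n : ℕ) (x : ℝ) : ℝ := ((Chebyshev.T ℝ (n : ℤ)).eval (-x)) ^ 2

theorem Tsq_Z (k : ℕ) (a : ℝ) : Tsq n (Z l s k a) = 1 / 2 + 1 / 2 * Real.cos ((2 * n : ℕ) * th l s k a) := by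
  unfold Tsq Z
  rw [neg_neg, Chebyshev.T_real_cos]
  have : ((2 * n : ℕ) : ℝ) * th l s k a = 2 * (((n:ℤ):ℝ) * th l s k a) := by push_cast; ring
  rw [this, Real.cos_two_mul]
  ring

theorem sum_h2 (h0 : 0 < s) (h1 : s < 1) (hP : Pos r s n M) (hn : 1 ≤ n) (hM : 1 ≤ M) (hl : 2 * n * (M + 1) < l + 1)
    (a : ℝ) :
    ∑ k ∈ range (l + 1), hf r n M l (Z l s k a) * Tsq n (Z l s k a) = (l + 1) * ((1 - r) / 2) := by
  have hl' : 2 * n * M ≤ l := by
    have : 2 * n * M ≤ 2 * n * (M + 1) := Nat.mul_le_mul_left _ (Nat.le_succ _)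
    omega
  obtain ⟨f1, f2⟩ := sum_F (r := r) (s := s) hn (show 2 * n * M < l + 1 by omega) a
  obtain ⟨f3, f4⟩ := sum_Fc (r := r) (s := s) hn hM hl a
  set κ := s * Real.cos a / Real.sin (ph s a)
  have e : ∀ k ∈ range (l + 1), hf r n M l (Z l s k a) * Tsq n (Z l s k a) =
      1 / 2 * F r n M (th l s k a) + 1 / 2 * (F r n M (th l s k a) * Real.cos ((2 * n : ℕ) * th l s k a)) -
      κ / 2 * Ft r n M (th l s k a) - κ / 2 * (Ft r n M (th l s k a) * Real.cos ((2 * n : ℕ) * th l s k a)) := by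
    intro k _
    rw [(hf_Z h0 h1 hP hl' k a).1, Tsq_Z]
    ring
  rw [sum_congr rfl e, sum_sub_distrib, sum_sub_distrib, sum_add_distrib, ← mul_sum, ← mul_sum, ← mul_sum, ← mul_sum,
    f1, f2, f3, f4]
  ring

theorem prob_refl (h0 : 0 < s) (h1 : s < 1) (hP : Pos r s n M) (hn : 1 ≤ n) (hl : 2 * n * M ≤ l) (hl1 : 1 ≤ l) :
    IsProbabilityMeasure (reflM (al l s) (be l s) (ga r s n M l)) := by
  constructor
  have := lint_refl h0 h1 hP hn hl hl1 (G := fun _ => 1) measurable_const (fun _ => zero_le_one) zero_le_one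
    (fun a => sum_h1 h0 h1 hP hn hl a)
  rw [ENNReal.ofReal_one, lintegral_one] at this
  exact this

/-- the monic Chebyshev polynomial -/
noncomputable def Pn (n : ℕ) : ℂ[X] := C (((2:ℂ) ^ (n - 1))⁻¹) * Chebyshev.T ℂ (n : ℤ)

theorem Pn_monic : (Pn n).Monic ∧ (Pn n).natDegree = n := by
  have hne : ((2:ℂ) ^ (n - 1))⁻¹ ≠ 0 := inv_ne_zero (pow_ne_zero _ two_ne_zero)
  constructor
  · unfold Pn Monic
    rw [leadingCoeff_mul, leadingCoeff_C, Chebyshev.leadingCoeff_T, Int.natAbs_natCast]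
    exact inv_mul_cancel₀ (pow_ne_zero _ two_ne_zero)
  · unfold Pn
    rw [natDegree_C_mul hne, Chebyshev.natDegree_T, Int.natAbs_natCast]

theorem Pn_eval (x : ℝ) : ‖(Pn n).eval (x : ℂ)‖ ^ 2 = (4 ^ (n - 1))⁻¹ * Tsq n x := by
  unfold Pn Tsq
  rw [eval_mul, eval_C, ← Chebyshev.complex_ofReal_eval_T, norm_mul, mul_pow, Complex.norm_real, Real.norm_eq_abs,
    sq_abs, norm_inv, norm_pow, Complex.norm_ofNat, Chebyshev.T_eval_neg, mul_pow]
  have h1 : (((n:ℤ).negOnePow : ℤ) : ℝ) ^ 2 = 1 := by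
    rcases Int.even_or_odd (n:ℤ) with h | h
    · rw [Int.negOnePow_even _ h]; simp
    · rw [Int.negOnePow_odd _ h]; simp
  have h2 : (((2:ℝ) ^ (n - 1))⁻¹) ^ 2 = (4 ^ (n - 1))⁻¹ := by
    rw [inv_pow, ← pow_mul, mul_comm, pow_mul]; norm_num
  rw [h1, h2, one_mul]

theorem polyNorm_eq (h0 : 0 < s) (h1 : s < 1) (hP : Pos r s n M) (hn : 1 ≤ n) (hM : 1 ≤ M)
    (hl : 2 * n * (M + 1) < l + 1) (hr : r ≤ 1) :
    polyNorm (reflM (al l s) (be l s) (ga r s n M l)) (Pn n) = Real.sqrt ((4 ^ (n - 1))⁻¹ * ((1 - r) / 2)) := by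
  have hl' : 2 * n * M ≤ l := by
    have : 2 * n * M ≤ 2 * n * (M + 1) := Nat.mul_le_mul_left _ (Nat.le_succ _)
    omega
  have hl1 : 1 ≤ l := by
    have : 2 ≤ 2 * n * (M + 1) := by nlinarith
    omega
  have hmT : Measurable (Tsq n) := by
    unfold Tsq
    exact (((Polynomial.continuous _).comp continuous_neg).pow 2).measurable
  have hT0 : ∀ x, 0 ≤ Tsq n x := fun x => by unfold Tsq; positivity
  unfold polyNorm
  congr 1
  simp only [Pn_eval]
  rw [integral_const_mul, integral_eq_lintegral_of_nonneg_ae (by filter_upwards with x using hT0 x)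
    hmT.aestronglyMeasurable, lint_refl h0 h1 hP hn hl' hl1 hmT hT0 (c := (1 - r) / 2) (by linarith)
      (fun a => sum_h2 h0 h1 hP hn hM hl a), ENNReal.toReal_ofReal (by linarith)]

theorem widom_le (h0 : 0 < s) (h1 : s < 1) (hP : Pos r s n M) (hn : 1 ≤ n) (hM : 1 ≤ M)
    (hl : 2 * n * (M + 1) < l + 1) (hr : r ≤ 1) :
    (widom (bands (al l s) (be l s)) (reflM (al l s) (be l s) (ga r s n M l)) n) ^ 2 ≤
      2 * (1 - r) * Real.exp (-(2 * n / (l + 1) * Real.log s)) := by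
  have hinf : (⨅ P : {P : Polynomial ℂ // P.Monic ∧ P.natDegree = n},
      polyNorm (reflM (al l s) (be l s) (ga r s n M l)) P.1) ≤ Real.sqrt ((4 ^ (n - 1))⁻¹ * ((1 - r) / 2)) := by
    rw [← polyNorm_eq h0 h1 hP hn hM hl hr]
    have hb : BddBelow (Set.range fun P : {P : Polynomial ℂ // P.Monic ∧ P.natDegree = n} =>
        polyNorm (reflM (al l s) (be l s) (ga r s n M l)) P.1) := by
      refine ⟨0, ?_⟩
      rintro _ ⟨P, rfl⟩
      exact Real.sqrt_nonneg _
    exact ciInf_le hb ⟨Pn n, Pn_monic⟩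
  have h0' : 0 ≤ (⨅ P : {P : Polynomial ℂ // P.Monic ∧ P.natDegree = n},
      polyNorm (reflM (al l s) (be l s) (ga r s n M l)) P.1) := Real.iInf_nonneg fun P => Real.sqrt_nonneg _
  have h2 := pow_le_pow_left₀ h0' hinf 2
  rw [Real.sq_sqrt (mul_nonneg (by positivity) (by linarith))] at h2
  unfold widom
  rw [div_pow, bands_eq h0 h1, cap_KK h0 h1]
  have hcap : ((Real.exp (-VV l s)) ^ n) ^ 2 = (4 ^ n)⁻¹ * Real.exp (2 * n / (l + 1) * Real.log s) := by
    rw [← pow_mul, ← Real.exp_nat_mul]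
    have e : ((n * 2 : ℕ) : ℝ) * -VV l s = -(Real.log (4 ^ n)) + 2 * n / (l + 1) * Real.log s := by
      unfold VV
      rw [Real.log_pow, show (4:ℝ) = 2 ^ 2 by norm_num, Real.log_pow]
      push_cast
      ring
    rw [e, Real.exp_add, Real.exp_neg, Real.exp_log (by positivity)]
  rw [hcap, div_le_iff₀ (by positivity)]
  refine h2.trans (le_of_eq ?_)
  have e1 : Real.exp (-(2 * n / (l + 1) * Real.log s)) * Real.exp (2 * n / (l + 1) * Real.log s) = 1 := by
    rw [← Real.exp_add, neg_add_cancel, Real.exp_zero]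
  have e2 : (4:ℝ) ^ n = 4 * 4 ^ (n - 1) := by
    rw [← pow_succ']
    congr 1
    omega
  rw [e2]
  have e3 : ((4:ℝ) ^ (n - 1)) ≠ 0 := by positivity
  generalize Real.exp (-(2 * n / (l + 1) * Real.log s)) = E1 at e1 ⊢
  generalize Real.exp (2 * n / (l + 1) * Real.log s) = E2 at e1 ⊢
  generalize (4:ℝ) ^ (n - 1) = q at e3 ⊢
  rw [mul_inv]
  linear_combination (-(1 - r) / 2 * q⁻¹) * e1

end Pool.Agent.Y764.W
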