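import Pool.Agent.Y764.W.W6
import Pool.Agent.H283R3.Wid6

set_option autoImplicit false

open Finset MeasureTheory Filter Polynomial
open Set (Icc Ioo)
open scoped ENNReal Topology

namespace Pool.Agent.Y764.W

open Pool.Agent.H283R3.WidDefs Pool.Agent.H283R3.Wid

variable {r s δ : ℝ} {n M l : ℕ}

noncomputable def den (r α : ℝ) : ℝ := 1 + 2 * r * Real.cos α + r ^ 2
noncomputable def Pk (r α : ℝ) : ℝ := (1 - r ^ 2) / den r α

theorem den_ge (hr0 : 0 < r) (hr1 : r < 1) (α : ℝ) : (1 - r) ^ 2 ≤ den r α ∧ den r α ≤ (1 + r) ^ 2 := by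
  unfold den
  have := Real.neg_one_le_cos α
  have := Real.cos_le_one α
  constructor <;> nlinarith

theorem den_pos (hr0 : 0 < r) (hr1 : r < 1) (α : ℝ) : 0 < den r α := by
  have := (den_ge hr0 hr1 α).1
  have : 0 < (1 - r) ^ 2 := by have : 0 < 1 - r := by linarith
                               positivity
  linarith

theorem Pk_ge (hr0 : 0 < r) (hr1 : r < 1) (α : ℝ) : (1 - r) / 2 ≤ Pk r α ∧ Pk r α ≤ 2 / (1 - r) := by
  obtain ⟨d1, d2⟩ := den_ge hr0 hr1 α
  have hd := den_pos hr0 hr1 α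
  have h1 : 0 < 1 - r := by linarith
  unfold Pk
  constructor
  · rw [div_le_div_iff₀ (by norm_num) hd]
    nlinarith
  · rw [div_le_div_iff₀ hd h1]
    nlinarith

theorem poisson (hr0 : 0 < r) (hr1 : r < 1) (θ : ℝ) :
    |F r n M θ - Pk r ((2 * n : ℕ) * θ)| ≤ 2 * r ^ (M + 1) / (1 - r) ∧ |Ft r n M θ| ≤ 4 / (1 - r) := by
  have h1r : 0 < 1 - r := by linarith
  set α : ℝ := (2 * n : ℕ) * θ with hα
  set z : ℂ := -(r : ℂ) * Complex.exp ((α : ℂ) * Complex.I) with hz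
  have hzre : z.re = -r * Real.cos α := by
    rw [hz, ← Complex.ofReal_neg, Complex.re_ofReal_mul, Complex.exp_ofReal_mul_I_re]
  have hzim : z.im = -r * Real.sin α := by
    rw [hz, ← Complex.ofReal_neg, Complex.im_ofReal_mul, Complex.exp_ofReal_mul_I_im]
  have hzn : ‖z‖ = r := by
    rw [hz, norm_mul, norm_neg, Complex.norm_exp_ofReal_mul_I, mul_one, Complex.norm_real, Real.norm_eq_abs,
      abs_of_pos hr0]
  have hzp : ∀ m : ℕ, z ^ m = (((-r) ^ m : ℝ) : ℂ) * Complex.exp (((((2 * n * m : ℕ) : ℝ) * θ : ℝ) : ℂ) * Complex.I) := by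
    intro m
    rw [hz, mul_pow, ← Complex.exp_nat_mul]
    congr 1
    · push_cast; rfl
    · congr 1
      rw [hα]
      push_cast
      ring
  set W : ℂ := ∑ m ∈ range (M + 1), ((cf r m : ℝ) : ℂ) * Complex.exp (((((2 * n * m : ℕ) : ℝ) * θ : ℝ) : ℂ) * Complex.I)
    with hW
  have hWre : W.re = F r n M θ := by
    rw [hW, Complex.re_sum]
    unfold F
    apply sum_congr rfl
    intro m _
    rw [Complex.re_ofReal_mul, Complex.exp_ofReal_mul_I_re]
  have hWim : W.im = Ft r n M θ := by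
    rw [hW, Complex.im_sum]
    unfold Ft
    apply sum_congr rfl
    intro m _
    rw [Complex.im_ofReal_mul, Complex.exp_ofReal_mul_I_im]
  have hW2 : W = 2 * ∑ m ∈ range (M + 1), z ^ m - 1 := by
    rw [hW, sum_range_succ', sum_range_succ' (fun m => z ^ m)]
    have : ∀ m ∈ range M, ((cf r (m + 1) : ℝ) : ℂ) *
        Complex.exp (((((2 * n * (m + 1) : ℕ) : ℝ) * θ : ℝ) : ℂ) * Complex.I) = 2 * z ^ (m + 1) := by
      intro m _
      rw [hzp]
      simp only [cf, Nat.succ_ne_zero, if_false]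
      push_cast
      ring
    rw [sum_congr rfl this, ← mul_sum]
    simp [cf]
    ring
  have hz1 : 1 - r ≤ ‖1 - z‖ := by
    have := norm_sub_norm_le (1:ℂ) z
    rw [norm_one, hzn] at this
    exact this
  have hzne : (1 - z) ≠ 0 := by
    intro h
    rw [h, norm_zero] at hz1
    linarith
  have hgeo : (1 - z) * ∑ m ∈ range (M + 1), z ^ m = 1 - z ^ (M + 1) := mul_neg_geom_sum z (M + 1)
  have hW3 : W = (1 + z) / (1 - z) - 2 * z ^ (M + 1) / (1 - z) := by
    rw [hW2, ← sub_div, eq_div_iff hzne]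
    linear_combination 2 * hgeo
  have hre : ((1 + z) / (1 - z)).re = Pk r α := by
    have hns : Complex.normSq (1 - z) = den r α := by
      rw [Complex.normSq_apply, Complex.sub_re, Complex.sub_im, Complex.one_re, Complex.one_im, hzre, hzim]
      unfold den
      linear_combination r ^ 2 * Real.sin_sq_add_cos_sq α
    rw [Complex.div_re, hns, ← add_div, Complex.add_re, Complex.add_im, Complex.sub_re, Complex.sub_im,
      Complex.one_re, Complex.one_im, hzre, hzim]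
    unfold Pk
    congr 1
    linear_combination (-(r ^ 2)) * Real.sin_sq_add_cos_sq α
  have htail : ‖2 * z ^ (M + 1) / (1 - z)‖ ≤ 2 * r ^ (M + 1) / (1 - r) := by
    rw [norm_div, norm_mul, norm_pow, hzn, Complex.norm_ofNat]
    gcongr
  constructor
  · have e : F r n M θ - Pk r α = -(2 * z ^ (M + 1) / (1 - z)).re := by
      rw [← hWre, hW3, Complex.sub_re, hre]
      ring
    rw [e, abs_neg]
    exact (Complex.abs_re_le_norm _).trans htail
  · rw [← hWim, hW3]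
    have h1z : ‖1 + z‖ ≤ 2 := by
      have := norm_add_le (1:ℂ) z
      rw [norm_one, hzn] at this
      linarith
    have hr2 : r ^ (M + 1) ≤ 1 := pow_le_one₀ hr0.le hr1.le
    calc |((1 + z) / (1 - z) - 2 * z ^ (M + 1) / (1 - z)).im| ≤ ‖(1 + z) / (1 - z) - 2 * z ^ (M + 1) / (1 - z)‖ :=
          Complex.abs_im_le_norm _
      _ ≤ ‖(1 + z) / (1 - z)‖ + ‖2 * z ^ (M + 1) / (1 - z)‖ := norm_sub_le _ _
      _ ≤ 2 / (1 - r) + 2 * 1 / (1 - r) := by
          apply add_le_add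
          · rw [norm_div]
            gcongr
          · refine htail.trans ?_
            gcongr
      _ = 4 / (1 - r) := by ring

/-- the smallness condition -/
def Small (r s δ : ℝ) (M : ℕ) : Prop :=
  2 * r ^ (M + 1) / (1 - r) + s / Real.sqrt (1 - s ^ 2) * (4 / (1 - r)) ≤ δ * ((1 - r) / 2)

theorem pos_of_small (hr0 : 0 < r) (hr1 : r < 1) (h0 : 0 < s) (h1 : s < 1) (hδ : δ < 1)
    (hS : Small r s δ M) : Pos r s n M := by
  intro θ
  obtain ⟨p1, p2⟩ := poisson (n := n) (M := M) hr0 hr1 θ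
  have h1r : 0 < 1 - r := by linarith
  have hq : 0 < Real.sqrt (1 - s ^ 2) := Real.sqrt_pos.2 (by nlinarith)
  have hPk := (Pk_ge hr0 hr1 ((2 * n : ℕ) * θ)).1
  have hF : Pk r ((2 * n : ℕ) * θ) - 2 * r ^ (M + 1) / (1 - r) ≤ F r n M θ := by
    have := (abs_le.1 p1).1
    linarith
  unfold Small at hS
  have hκ : s / Real.sqrt (1 - s ^ 2) * |Ft r n M θ| ≤ s / Real.sqrt (1 - s ^ 2) * (4 / (1 - r)) := by gcongr
  have hlt : s / Real.sqrt (1 - s ^ 2) * |Ft r n M θ| < F r n M θ := by nlinarith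
  have := mul_lt_mul_of_pos_left hlt hq
  calc s * |Ft r n M θ| = Real.sqrt (1 - s ^ 2) * (s / Real.sqrt (1 - s ^ 2) * |Ft r n M θ|) := by field_simp
    _ < _ := this

theorem hf_bounds (hr0 : 0 < r) (hr1 : r < 1) (h0 : 0 < s) (h1 : s < 1) (hδ0 : 0 < δ) (hδ : δ < 1)
    (hS : Small r s δ M) (hl : 2 * n * M ≤ l) (k : ℕ) (a : ℝ) :
    (1 - δ) * Pk r ((2 * n : ℕ) * th l s k a) ≤ hf r n M l (Z l s k a) ∧
    hf r n M l (Z l s k a) ≤ 2 / (1 - r) + 1 := by
  have hP := pos_of_small (n := n) hr0 hr1 h0 h1 hδ hS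
  obtain ⟨p1, p2⟩ := poisson (n := n) (M := M) hr0 hr1 (th l s k a)
  have h1r : 0 < 1 - r := by linarith
  have hq : 0 < Real.sqrt (1 - s ^ 2) := Real.sqrt_pos.2 (by nlinarith)
  obtain ⟨hPk, hPk2⟩ := Pk_ge hr0 hr1 ((2 * n : ℕ) * th l s k a)
  have hsp := sin_ph_pos h0 h1 a
  have hsin : Real.sqrt (1 - s ^ 2) ≤ Real.sin (ph s a) := by
    rw [sin_ph]
    apply Real.sqrt_le_sqrt
    have := Real.abs_cos_le_one a
    have h2 : Real.cos a ^ 2 ≤ 1 := by rw [← sq_abs]; nlinarith [abs_nonneg (Real.cos a)]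
    nlinarith [sq_nonneg s]
  have hκ : |s * Real.cos a / Real.sin (ph s a) * Ft r n M (th l s k a)| ≤
      s / Real.sqrt (1 - s ^ 2) * (4 / (1 - r)) := by
    rw [abs_mul, abs_div, abs_mul, abs_of_pos h0, abs_of_pos hsp]
    have : s * |Real.cos a| / Real.sin (ph s a) ≤ s / Real.sqrt (1 - s ^ 2) := by
      have : s * |Real.cos a| ≤ s := by nlinarith [Real.abs_cos_le_one a]
      gcongr
    gcongr
  unfold Small at hS
  rw [(hf_Z h0 h1 hP hl k a).1]
  have b1 := abs_le.1 p1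
  have b2 := abs_le.1 hκ
  constructor
  · nlinarith [b1.1, b1.2, b2.1, b2.2]
  · nlinarith [b1.1, b1.2, b2.1, b2.2]

/-! ### the product of the denominators over a fibre -/

theorem prod_den (hr0 : 0 < r) (hr1 : r < 1) {N : ℕ} (hN : 0 < N) {φ : ℝ} (hφ0 : 0 < φ) (hφ1 : φ < Real.pi) :
    ∏ k ∈ range N, den r ((φ + 2 * Real.pi * k) / N) ≤ 4 := by
  set R : ℝ := Real.cosh (Real.log r) with hR
  have hRr : 2 * r * R = 1 + r ^ 2 := by
    rw [hR, Real.cosh_log hr0]
    field_simp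
    ring
  have hTR : (Chebyshev.T ℝ (N:ℤ)).eval R = (r ^ N + (r ^ N)⁻¹) / 2 := by
    rw [hR, Chebyshev.T_real_cosh]
    have : ((N:ℤ):ℝ) * Real.log r = Real.log (r ^ N) := by rw [Real.log_pow]; push_cast; rfl
    rw [this, Real.cosh_log (by positivity)]
  have hpf := prodform hN hφ0 hφ1 (-R)
  have hden : ∀ k ∈ range N, den r ((φ + 2 * Real.pi * k) / N) = 2 * r * |(-R) - Real.cos ((φ + 2 * Real.pi * k) / N)| := by
    intro k _
    have hR1 : 1 ≤ R := Real.one_le_cosh _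
    have := Real.neg_one_le_cos ((φ + 2 * Real.pi * k) / N)
    rw [abs_of_nonpos (by linarith)]
    unfold den
    linear_combination -hRr
  rw [prod_congr rfl hden, prod_mul_distrib, prod_const, card_range, ← Finset.abs_prod]
  have h2 : (2:ℝ) ^ (N - 1) * |∏ k ∈ range N, ((-R) - Real.cos ((φ + 2 * Real.pi * k) / N))| =
      |(Chebyshev.T ℝ (N:ℤ)).eval (-R) - Real.cos φ| := by
    rw [hpf, abs_mul, abs_of_pos (by positivity : (0:ℝ) < 2 ^ (N - 1))]
  have h3 : |(Chebyshev.T ℝ (N:ℤ)).eval (-R) - Real.cos φ| ≤ (r ^ N + (r ^ N)⁻¹) / 2 + 1 := by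
    have h4 : |(Chebyshev.T ℝ (N:ℤ)).eval (-R)| = (r ^ N + (r ^ N)⁻¹) / 2 := by
      rw [Chebyshev.T_eval_neg, abs_mul, hTR, abs_of_pos (by positivity : 0 < (r ^ N + (r ^ N)⁻¹) / 2)]
      rcases Int.even_or_odd (N:ℤ) with h | h
      · rw [Int.negOnePow_even _ h]; simp
      · rw [Int.negOnePow_odd _ h]; simp
    calc |(Chebyshev.T ℝ (N:ℤ)).eval (-R) - Real.cos φ| ≤ |(Chebyshev.T ℝ (N:ℤ)).eval (-R)| + |Real.cos φ| := abs_sub _ _
      _ ≤ _ := by rw [h4]; linarith [Real.abs_cos_le_one φ]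
  have h2N : (2:ℝ) ^ N = 2 * 2 ^ (N - 1) := by
    rw [← pow_succ']; congr 1; omega
  have hrN : r ^ N ≤ 1 := pow_le_one₀ hr0.le hr1.le
  have hrN0 : 0 < r ^ N := by positivity
  calc (2 * r) ^ N * |∏ k ∈ range N, ((-R) - Real.cos ((φ + 2 * Real.pi * k) / N))|
      = 2 * r ^ N * (2 ^ (N - 1) * |∏ k ∈ range N, ((-R) - Real.cos ((φ + 2 * Real.pi * k) / N))|) := by
        rw [mul_pow, h2N]; ring
    _ ≤ 2 * r ^ N * ((r ^ N + (r ^ N)⁻¹) / 2 + 1) := by rw [h2]; gcongr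
    _ = r ^ N * r ^ N + r ^ N * (r ^ N)⁻¹ + 2 * r ^ N := by ring
    _ = r ^ N * r ^ N + 1 + 2 * r ^ N := by rw [mul_inv_cancel₀ hrN0.ne']
    _ ≤ 4 := by nlinarith

theorem prod_den_all (hr0 : 0 < r) (hr1 : r < 1) {N : ℕ} (hN : 0 < N) {φ : ℝ} (hφ0 : 0 < φ) (hφ1 : φ < Real.pi) (c : ℕ) :
    ∏ k ∈ range (c * N), den r ((φ + 2 * Real.pi * k) / N) ≤ 4 ^ c := by
  induction c with
  | zero => simp
  | succ c ih =>
    rw [Nat.succ_mul, prod_range_add]
    have e : ∏ x ∈ range N, den r ((φ + 2 * Real.pi * ((c * N + x : ℕ) : ℝ)) / N) =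
        ∏ k ∈ range N, den r ((φ + 2 * Real.pi * k) / N) := by
      apply prod_congr rfl
      intro k _
      have hNr : (N:ℝ) ≠ 0 := by exact_mod_cast hN.ne'
      have : (φ + 2 * Real.pi * ((c * N + k : ℕ) : ℝ)) / N = (φ + 2 * Real.pi * k) / N + c * (2 * Real.pi) := by
        push_cast
        field_simp
        ring
      unfold den
      rw [this, Real.cos_add_nat_mul_two_pi]
    rw [e, pow_succ]
    have h1 := prod_den hr0 hr1 hN hφ0 hφ1
    have h2 : 0 ≤ ∏ k ∈ range N, den r ((φ + 2 * Real.pi * k) / N) :=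
      prod_nonneg fun k _ => (den_pos hr0 hr1 _).le
    have h3 : 0 ≤ ∏ k ∈ range (c * N), den r ((φ + 2 * Real.pi * k) / N) :=
      prod_nonneg fun k _ => (den_pos hr0 hr1 _).le
    calc _ ≤ 4 ^ c * 4 := mul_le_mul ih h1 h2 (by positivity)
      _ = _ := by ring

/-- the value bounding the mean of the logarithm from below -/
noncomputable def mm (r δ : ℝ) (N : ℕ) : ℝ := Real.log (1 - δ) + Real.log (1 - r ^ 2) - 2 / N * Real.log 2

theorem sum_log (hr0 : 0 < r) (hr1 : r < 1) (h0 : 0 < s) (h1 : s < 1) (hδ0 : 0 < δ) (hδ : δ < 1)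
    (hS : Small r s δ M) (hl : 2 * n * M ≤ l) (hn : 1 ≤ n) {N : ℕ} (hN : 0 < N) (hlN : l + 1 = 2 * n * N) (a : ℝ) :
    (l + 1) * mm r δ N ≤ ∑ k ∈ range (l + 1), Real.log (hf r n M l (Z l s k a)) := by
  have h1r : 0 < 1 - r := by linarith
  have hr2 : 0 < 1 - r ^ 2 := by nlinarith
  have hb : ∀ k ∈ range (l + 1), Real.log (1 - δ) + Real.log (1 - r ^ 2) -
      Real.log (den r ((2 * n : ℕ) * th l s k a)) ≤ Real.log (hf r n M l (Z l s k a)) := by
    intro k _
    obtain ⟨b1, -⟩ := hf_bounds (n := n) hr0 hr1 h0 h1 hδ0 hδ hS hl k a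
    have hd := den_pos hr0 hr1 ((2 * n : ℕ) * th l s k a)
    have hP : 0 < Pk r ((2 * n : ℕ) * th l s k a) := by unfold Pk; positivity
    have e : Real.log (1 - δ) + Real.log (1 - r ^ 2) - Real.log (den r ((2 * n : ℕ) * th l s k a)) =
        Real.log ((1 - δ) * Pk r ((2 * n : ℕ) * th l s k a)) := by
      rw [Real.log_mul (by linarith) hP.ne']
      unfold Pk
      rw [Real.log_div hr2.ne' hd.ne']
      ring
    rw [e]
    exact Real.log_le_log (mul_pos (by linarith) hP) b1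
  refine le_trans ?_ (sum_le_sum hb)
  rw [sum_sub_distrib, sum_const, card_range, nsmul_eq_mul, ← Real.log_prod (fun k _ => (den_pos hr0 hr1 _).ne')]
  have e : ∏ k ∈ range (l + 1), den r ((2 * n : ℕ) * th l s k a) =
      ∏ k ∈ range (2 * n * N), den r ((ph s a + 2 * Real.pi * k) / N) := by
    rw [hlN]
    apply prod_congr rfl
    intro k _
    congr 1
    unfold th
    rw [hlN]
    have : (N:ℝ) ≠ 0 := by exact_mod_cast hN.ne'
    have : (n:ℝ) ≠ 0 := by
      have : n ≠ 0 := by omega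
      exact_mod_cast this
    push_cast
    field_simp
  have hprod := prod_den_all (c := 2 * n) hr0 hr1 hN (ph_mem h0 h1 a).1 (ph_mem h0 h1 a).2
  rw [← e] at hprod
  have hpp : 0 < ∏ k ∈ range (l + 1), den r ((2 * n : ℕ) * th l s k a) := prod_pos fun k _ => den_pos hr0 hr1 _
  have hlog := Real.log_le_log hpp hprod
  rw [Real.log_pow, show (4:ℝ) = 2 ^ 2 by norm_num, Real.log_pow] at hlog
  have hl' : ((l:ℝ) + 1) = 2 * n * N := by exact_mod_cast hlN
  unfold mm
  have e3 : ((l:ℝ) + 1) * (2 / N * Real.log 2) = 4 * n * Real.log 2 := by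
    rw [hl']
    have : (N:ℝ) ≠ 0 := by exact_mod_cast hN.ne'
    field_simp
    ring
  push_cast at hlog ⊢
  nlinarith

end Pool.Agent.Y764.W
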