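import Pool.Agent.Y764.W.W7

set_option autoImplicit false

open Finset MeasureTheory Filter Polynomial
open Set (Icc Ioo)
open scoped ENNReal Topology

namespace Pool.Agent.Y764.W

open Pool.Agent.H283R3.WidDefs Pool.Agent.H283R3.Wid

variable {r s δ : ℝ} {n M l : ℕ}

/-- lower bound of integrals against the equilibrium measure by fibre sums -/
theorem int_ge (h0 : 0 < s) (h1 : s < 1) {g : ℝ → ℝ} (hg : Measurable g) {B m : ℝ}
    (hB : ∀ x ∈ OO l s, |g x| ≤ B) (hs : ∀ a ∈ Ioo 0 Real.pi, (l + 1) * m ≤ ∑ k ∈ range (l + 1), g (Z l s k a)) :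
    Integrable g (muK l s) ∧ m ≤ ∫ x, g x ∂(muK l s) := by
  have hp := prob_muK (l := l) h0 h1
  have hpi := Real.pi_pos
  have hae := muK_OO (l := l) h0 h1
  have hi : Integrable g (muK l s) := by
    apply Integrable.of_bound hg.aestronglyMeasurable B
    filter_upwards [hae] with x hx
    rw [Real.norm_eq_abs]
    exact hB x hx
  refine ⟨hi, ?_⟩
  have hi2 : Integrable (fun x => g x + B) (muK l s) := hi.add (integrable_const B)
  have hnn : 0 ≤ᵐ[muK l s] fun x => g x + B := by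
    filter_upwards [hae] with x hx
    have := (abs_le.1 (hB x hx)).1
    show 0 ≤ g x + B
    linarith
  have hgm : Measurable (fun x => ENNReal.ofReal (g x + B)) := ENNReal.measurable_ofReal.comp (hg.add_const B)
  have hlow : ENNReal.ofReal (m + B) ≤ ∫⁻ x, ENNReal.ofReal (g x + B) ∂(muK l s) := by
    rw [lint_muK h0 h1 hgm]
    have : ∫⁻ a in Ioo 0 Real.pi, ENNReal.ofReal ((l + 1) * (m + B)) ≤
        ∫⁻ a in Ioo 0 Real.pi, ∑ k ∈ range (l + 1), ENNReal.ofReal (g (Z l s k a) + B) := by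
      apply setLIntegral_mono' measurableSet_Ioo
      intro a ha
      rw [← ENNReal.ofReal_sum_of_nonneg]
      · apply ENNReal.ofReal_le_ofReal
        rw [sum_add_distrib, sum_const, card_range, nsmul_eq_mul]
        have := hs a ha
        push_cast
        linarith
      · intro k _
        have := (abs_le.1 (hB _ (Z_mem h0 h1 k ha))).1
        linarith
    refine le_trans (le_of_eq ?_) (mul_le_mul_right this _)
    rw [setLIntegral_const, Real.volume_Ioo, sub_zero, ← ENNReal.ofReal_mul' hpi.le, ← ENNReal.ofReal_mul (by positivity)]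
    congr 1
    field_simp
  have h3 : m + B ≤ ∫ x, (g x + B) ∂(muK l s) := by
    rw [integral_eq_lintegral_of_nonneg_ae hnn hi2.aestronglyMeasurable]
    exact (ENNReal.ofReal_le_iff_le_toReal (hi2.lintegral_lt_top).ne).1 hlow
  rw [integral_add hi (integrable_const B), integral_const] at h3
  simp at h3
  exact h3

theorem szego_ge (hr0 : 0 < r) (hr1 : r < 1) (h0 : 0 < s) (h1 : s < 1) (hδ0 : 0 < δ) (hδ : δ < 1)
    (hS : Small r s δ M) (hl : 2 * n * M ≤ l) (hn : 1 ≤ n) (hl1 : 1 ≤ l) {N : ℕ} (hN : 0 < N) (hlN : l + 1 = 2 * n * N) :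
    Real.exp (mm r δ N) ≤ szego (reflM (al l s) (be l s) (ga r s n M l)) (muK l s) := by
  have hP := pos_of_small (n := n) hr0 hr1 h0 h1 hδ hS
  have hp := prob_muK (l := l) h0 h1
  have h1r : 0 < 1 - r := by linarith
  have hm2 : Measurable (fun x => ENNReal.ofReal (hf r n M l x)) :=
    ENNReal.measurable_ofReal.comp measurable_hf
  have hrn : (reflM (al l s) (be l s) (ga r s n M l)).rnDeriv (muK l s) =ᵐ[muK l s]
      fun x => ENNReal.ofReal (hf r n M l x) := by
    rw [refl_eq h0 h1 hP hn hl hl1]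
    exact Measure.rnDeriv_withDensity (muK l s) hm2
  have hae := muK_OO (l := l) h0 h1
  have hb : ∀ x ∈ OO l s, (1 - δ) * ((1 - r) / 2) ≤ hf r n M l x ∧ hf r n M l x ≤ 2 / (1 - r) + 1 := by
    intro x hx
    obtain ⟨k, -, a, -, rfl⟩ := Z_surj h0 h1 hx
    obtain ⟨b1, b2⟩ := hf_bounds (n := n) hr0 hr1 h0 h1 hδ0 hδ hS hl k a
    refine ⟨le_trans ?_ b1, b2⟩
    have := (Pk_ge hr0 hr1 ((2 * n : ℕ) * th l s k a)).1
    have : 0 ≤ 1 - δ := by linarith
    gcongr
  have hc1 : 0 < (1 - δ) * ((1 - r) / 2) := mul_pos (by linarith) (by linarith)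
  set B := |Real.log ((1 - δ) * ((1 - r) / 2))| + |Real.log (2 / (1 - r) + 1)| with hBdef
  have hB : ∀ x ∈ OO l s, |Real.log (hf r n M l x)| ≤ B := by
    intro x hx
    obtain ⟨b1, b2⟩ := hb x hx
    have l1 := Real.log_le_log hc1 b1
    have l2 := Real.log_le_log (hc1.trans_le b1) b2
    rw [abs_le]
    constructor
    · linarith [neg_abs_le (Real.log ((1 - δ) * ((1 - r) / 2))), abs_nonneg (Real.log (2 / (1 - r) + 1))]
    · linarith [le_abs_self (Real.log (2 / (1 - r) + 1)), abs_nonneg (Real.log ((1 - δ) * ((1 - r) / 2)))]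
  obtain ⟨i3, i4⟩ : Integrable (fun x => Real.log (hf r n M l x)) (muK l s) ∧
      mm r δ N ≤ ∫ x, Real.log (hf r n M l x) ∂(muK l s) :=
    int_ge (m := mm r δ N) h0 h1 (Real.measurable_log.comp measurable_hf) hB
      (fun a _ => sum_log hr0 hr1 h0 h1 hδ0 hδ hS hl hn hN hlN a)
  have hlog : ∀ᵐ x ∂(muK l s), ENNReal.log ((reflM (al l s) (be l s) (ga r s n M l)).rnDeriv (muK l s) x) =
      ((Real.log (hf r n M l x) : ℝ) : EReal) := by
    filter_upwards [hrn, hae] with x h1 h2
    rw [h1, ENNReal.log_ofReal_of_pos (hc1.trans_le (hb x h2).1)]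
  have he : eint (muK l s) (fun x => ENNReal.log ((reflM (al l s) (be l s) (ga r s n M l)).rnDeriv (muK l s) x)) =
      eint (muK l s) (fun x => ((Real.log (hf r n M l x) : ℝ) : EReal)) := by
    unfold eint
    congr 2
    · apply lintegral_congr_ae
      filter_upwards [hlog] with x hx
      rw [hx]
    · apply lintegral_congr_ae
      filter_upwards [hlog] with x hx
      rw [hx]
  unfold szego
  rw [he, eint_real i3, EReal.exp_coe, ENNReal.toReal_ofReal (Real.exp_pos _).le]
  exact Real.exp_le_exp.2 i4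

theorem main (n : ℕ) (hn : 1 ≤ n) (ε : ℝ) (hε : 0 < ε) :
    ∃ (l : ℕ) (α β : Fin (l + 1) → ℝ) (γ : Fin l → ℝ) (μK : Measure ℝ),
      IsFiniteGap α β ∧ InGaps α β γ ∧ IsEquilibrium (bands α β) μK ∧
      IsProbabilityMeasure (reflM α β γ) ∧
      (widom (bands α β) (reflM α β γ) n) ^ 2 < (1 + ε) * szego (reflM α β γ) μK ∧
      bands α β ⊆ Set.Icc (-1) 1 ∧ (1 - ε) / 2 < cap (bands α β) := by
  set e := min ε 1 with he
  have he0 : 0 < e := lt_min hε one_pos
  have he1 : e ≤ 1 := min_le_right _ _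
  have heε : e ≤ ε := min_le_left _ _
  set r := 1 - e / 4 with hr
  set δ := e / 8 with hδ
  have hr0 : 0 < r := by rw [hr]; linarith
  have hr1 : r < 1 := by rw [hr]; linarith
  have hδ0 : 0 < δ := by rw [hδ]; linarith
  have hδ1 : δ < 1 := by rw [hδ]; linarith
  have h1r : 0 < 1 - r := by linarith
  -- the number of terms
  have hlim := (tendsto_pow_atTop_nhds_zero_of_lt_one hr0.le hr1)
  have hc : 0 < δ * ((1 - r) / 2) / 2 * (1 - r) / 2 := by positivity
  obtain ⟨M₀, hM₀⟩ := (hlim.eventually (gt_mem_nhds hc)).exists_forall_of_atTop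
  set M := M₀ + 1 with hM
  have hrM : r ^ (M + 1) < δ * ((1 - r) / 2) / 2 * (1 - r) / 2 := hM₀ (M + 1) (by omega)
  have ht1 : 2 * r ^ (M + 1) / (1 - r) ≤ δ * ((1 - r) / 2) / 2 := by
    rw [div_le_iff₀ h1r]
    linarith
  -- the size of the bands
  set s := δ * (1 - r) ^ 2 / 32 with hs
  have hs0 : 0 < s := by rw [hs]; positivity
  have hs2 : s ≤ 1 / 2 := by
    rw [hs]
    have : (1 - r) ^ 2 ≤ 1 := by nlinarith
    nlinarith
  have hs1 : s < 1 := by linarith
  have hq : 1 / 2 ≤ Real.sqrt (1 - s ^ 2) := Real.le_sqrt_of_sq_le (by nlinarith)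
  have ht2 : s / Real.sqrt (1 - s ^ 2) * (4 / (1 - r)) ≤ δ * ((1 - r) / 2) / 2 := by
    have h1 : s / Real.sqrt (1 - s ^ 2) ≤ 2 * s := by
      rw [div_le_iff₀ (by linarith)]
      nlinarith
    calc s / Real.sqrt (1 - s ^ 2) * (4 / (1 - r)) ≤ 2 * s * (4 / (1 - r)) := by gcongr
      _ = δ * ((1 - r) / 2) / 2 := by rw [hs]; field_simp; ring
  have hS : Small r s δ M := by
    unfold Small
    linarith
  -- the number of bands
  have hinv : Tendsto (fun N : ℕ => (1:ℝ) / N) atTop (𝓝 0) := tendsto_one_div_atTop_nhds_zero_nat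
  have hl1 : Tendsto (fun N : ℕ => Real.exp (1 / (N:ℝ) * (2 * Real.log 2 - Real.log s))) atTop (𝓝 1) := by
    have := (Real.continuous_exp.tendsto _).comp (hinv.mul_const (2 * Real.log 2 - Real.log s))
    rw [zero_mul, Real.exp_zero] at this
    exact this
  have hl2 : Tendsto (fun N : ℕ => Real.exp (1 / (N:ℝ) * Real.log s)) atTop (𝓝 1) := by
    have := (Real.continuous_exp.tendsto _).comp (hinv.mul_const (Real.log s))
    rw [zero_mul, Real.exp_zero] at this
    exact this
  obtain ⟨N, hN1, hN2, hN3⟩ := ((hl1.eventually (gt_mem_nhds (show (1:ℝ) < 1 + e / 2 by linarith))).and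
    ((hl2.eventually (lt_mem_nhds (show 1 - e < (1:ℝ) by linarith))).and (eventually_ge_atTop (M + 2)))).exists
  have hN : 0 < N := by omega
  have hNr : (0:ℝ) < N := by exact_mod_cast hN
  have h2nN : 2 * n * (M + 1) < 2 * n * N := Nat.mul_lt_mul_of_pos_left (by omega) (by omega)
  set l := 2 * n * N - 1 with hl
  have hlN : l + 1 = 2 * n * N := by omega
  have hlM : 2 * n * (M + 1) < l + 1 := by omega
  have hlM' : 2 * n * M ≤ l := by
    have : 2 * n * M ≤ 2 * n * (M + 1) := Nat.mul_le_mul_left _ (Nat.le_succ _)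
    omega
  have hll : 1 ≤ l := by
    have : 2 * 1 * 1 ≤ 2 * n * (M + 1) := Nat.mul_le_mul (by omega) (by omega)
    omega
  have hP := pos_of_small (n := n) hr0 hr1 hs0 hs1 hδ1 hS
  have hlr : ((l:ℝ) + 1) = 2 * n * N := by exact_mod_cast hlN
  have hnr : (0:ℝ) < n := by exact_mod_cast hn
  refine ⟨l, al l s, be l s, ga r s n M l, muK l s, isFiniteGap hs0 hs1, inGaps hs0 hs1 hP hlM', ?_,
    prob_refl hs0 hs1 hP hn hlM' hll, ?_, ?_, ?_⟩
  · rw [bands_eq hs0 hs1]
    exact isEquilibrium_muK hs0 hs1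
  · have hw := widom_le hs0 hs1 hP hn (by omega : 1 ≤ M) hlM hr1.le
    have hz := szego_ge hr0 hr1 hs0 hs1 hδ0 hδ1 hS hlM' hn hll hN hlN
    have hmm : Real.exp (mm r δ N) = (1 - δ) * (1 - r ^ 2) * Real.exp (-(2 / N * Real.log 2)) := by
      unfold mm
      rw [sub_eq_add_neg, Real.exp_add, Real.exp_add, Real.exp_log (by linarith), Real.exp_log (by nlinarith)]
    rw [hmm] at hz
    have e1 : 2 * (n:ℝ) / (l + 1) = 1 / N := by rw [hlr]; field_simp
    rw [e1] at hw
    have e2 : Real.exp (-(1 / N * Real.log s)) =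
        Real.exp (1 / (N:ℝ) * (2 * Real.log 2 - Real.log s)) * Real.exp (-(2 / N * Real.log 2)) := by
      rw [← Real.exp_add]
      congr 1
      ring
    rw [e2] at hw
    set E1 := Real.exp (1 / (N:ℝ) * (2 * Real.log 2 - Real.log s))
    set E2 := Real.exp (-(2 / (N:ℝ) * Real.log 2)) with hE2
    have hE2p : 0 < E2 := Real.exp_pos _
    have hSz : 0 ≤ szego (reflM (al l s) (be l s) (ga r s n M l)) (muK l s) := by
      unfold szego
      exact ENNReal.toReal_nonneg
    have hnum : 2 * (1 + e / 2) ≤ (1 + e) * (1 - δ) * (1 + r) := by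
      rw [hδ, hr]
      nlinarith [mul_nonneg he0.le (sub_nonneg.2 he1), mul_nonneg (mul_nonneg he0.le he0.le) (sub_nonneg.2 he1),
        mul_nonneg he0.le he0.le]
    calc (widom (bands (al l s) (be l s)) (reflM (al l s) (be l s) (ga r s n M l)) n) ^ 2
        ≤ 2 * (1 - r) * (E1 * E2) := hw
      _ < 2 * (1 - r) * ((1 + e / 2) * E2) := by
          have : E1 * E2 < (1 + e / 2) * E2 := mul_lt_mul_of_pos_right hN1 hE2p
          exact mul_lt_mul_of_pos_left this (by linarith)
      _ = (2 * (1 + e / 2)) * ((1 - r) * E2) := by ring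
      _ ≤ ((1 + e) * (1 - δ) * (1 + r)) * ((1 - r) * E2) :=
          mul_le_mul_of_nonneg_right hnum (by positivity)
      _ = (1 + e) * ((1 - δ) * (1 - r ^ 2) * E2) := by ring
      _ ≤ (1 + e) * szego (reflM (al l s) (be l s) (ga r s n M l)) (muK l s) := by gcongr
      _ ≤ (1 + ε) * szego (reflM (al l s) (be l s) (ga r s n M l)) (muK l s) := by gcongr
  · rw [bands_eq hs0 hs1]
    intro x hx
    exact abs_le.1 hx.1
  · rw [bands_eq hs0 hs1, cap_KK hs0 hs1]
    have e1 : -VV l s = -Real.log 2 + 1 / (l + 1) * Real.log s := by unfold VV; ring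
    rw [e1, Real.exp_add, Real.exp_neg, Real.exp_log (by norm_num)]
    have h2 : Real.exp (1 / (N:ℝ) * Real.log s) ≤ Real.exp (1 / ((l:ℝ) + 1) * Real.log s) := by
      apply Real.exp_le_exp.2
      have hls : Real.log s < 0 := Real.log_neg hs0 hs1
      have hNl : (N:ℝ) ≤ (l:ℝ) + 1 := by
        rw [hlr]
        have : (1:ℝ) ≤ n := by exact_mod_cast hn
        nlinarith
      have : 1 / ((l:ℝ) + 1) ≤ 1 / (N:ℝ) := one_div_le_one_div_of_le hNr hNl
      exact mul_le_mul_of_nonpos_right this hls.le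
    linarith

end Pool.Agent.Y764.W
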